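import Pool.Agent.Hhelper75.PolQ.Defs

/-!
# Actions of the polymorphism clone of `(ℚ; <)` on a set
-/

namespace PolQ

/-- An action of the clone of all strictly monotone operations on `ℚ` on a set `Ω`. -/
structure Act (Ω : Type) where
  ev : ∀ n : ℕ, Op ℚ n → (Fin (n + 1) → Ω) → Ω
  ev_proj : ∀ (n : ℕ) (i : Fin (n + 1)) (w : Fin (n + 1) → Ω), ev n (fun x => x i) w = w i
  ev_comp : ∀ (k n : ℕ) (f : Op ℚ k) (g : Fin (k + 1) → Op ℚ n) (w : Fin (n + 1) → Ω),
    IsPol f → (∀ i, IsPol (g i)) →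
      ev n (fun x => f fun i => g i x) w = ev k f fun i => ev n (g i) w

theorem isPol_proj (n : ℕ) (i : Fin (n + 1)) : IsPol (n := n) fun x => x i := fun _ _ h => h i

theorem isPol_comp {k n : ℕ} {f : Op ℚ k} {g : Fin (k + 1) → Op ℚ n} (hf : IsPol f)
    (hg : ∀ i, IsPol (g i)) : IsPol fun x => f fun i => g i x :=
  fun _ _ h => hf _ _ fun i => hg i _ _ h

theorem isPol_left {n : ℕ} {f : Op ℚ n} {α : ℚ → ℚ} (hα : StrictMono α) (hf : IsPol f) :
    IsPol fun x => α (f x) := fun x y h => hα (hf x y h)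

theorem isPol_right {n : ℕ} {f : Op ℚ n} {α : Fin (n + 1) → ℚ → ℚ} (hf : IsPol f)
    (hα : ∀ i, StrictMono (α i)) : IsPol fun x => f fun i => α i (x i) :=
  fun x y h => hf _ _ fun i => hα i (h i)

theorem isPol_un {n : ℕ} (i : Fin (n + 1)) {α : ℚ → ℚ} (hα : StrictMono α) :
    IsPol (n := n) fun x => α (x i) := fun _ _ h => hα (h i)

namespace Act

variable {Ω : Type} (A : Act Ω)

/-- The unary part of the action. -/
def sm (α : ℚ → ℚ) (w : Ω) : Ω := A.ev 0 (fun x => α (x 0)) fun _ => w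

theorem sm_id (w : Ω) : A.sm (fun q => q) w = w := A.ev_proj 0 0 _

theorem ev_left {n : ℕ} {f : Op ℚ n} {α : ℚ → ℚ} (hα : StrictMono α) (hf : IsPol f)
    (w : Fin (n + 1) → Ω) : A.ev n (fun x => α (f x)) w = A.sm α (A.ev n f w) := by
  have h := A.ev_comp 0 n (fun x => α (x 0)) (fun _ => f) w (isPol_un 0 hα) fun _ => hf
  simpa [sm] using h

theorem sm_comp {α β : ℚ → ℚ} (hα : StrictMono α) (hβ : StrictMono β) (w : Ω) :
    A.sm (fun q => α (β q)) w = A.sm α (A.sm β w) :=
  A.ev_left (n := 0) hα (isPol_un 0 hβ) _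

theorem ev_un {n : ℕ} {α : ℚ → ℚ} (hα : StrictMono α) (i : Fin (n + 1))
    (w : Fin (n + 1) → Ω) : A.ev n (fun x => α (x i)) w = A.sm α (w i) := by
  rw [A.ev_left hα (isPol_proj n i), A.ev_proj]

theorem ev_right {n : ℕ} {f : Op ℚ n} {α : Fin (n + 1) → ℚ → ℚ} (hf : IsPol f)
    (hα : ∀ i, StrictMono (α i)) (w : Fin (n + 1) → Ω) :
    A.ev n (fun x => f fun i => α i (x i)) w = A.ev n f fun i => A.sm (α i) (w i) := by
  rw [A.ev_comp n n f (fun i x => α i (x i)) w hf fun i => isPol_un i (hα i)]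
  congr 1
  funext i
  exact A.ev_un (hα i) i w

theorem isPol_min : IsPol (n := 1) fun x => min (x 0) (x 1) :=
  fun _ _ h => min_lt_min (h 0) (h 1)

theorem isPol_max : IsPol (n := 1) fun x => max (x 0) (x 1) :=
  fun _ _ h => max_lt_max (h 0) (h 1)

/-- The operation given by `min`. -/
def mn (a b : Ω) : Ω := A.ev 1 (fun x => min (x 0) (x 1)) ![a, b]

/-- The operation given by `max`. -/
def mx (a b : Ω) : Ω := A.ev 1 (fun x => max (x 0) (x 1)) ![a, b]

theorem mn_sm {α β : ℚ → ℚ} (hα : StrictMono α) (hβ : StrictMono β) (w : Ω) :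
    A.mn (A.sm α w) (A.sm β w) = A.sm (fun q => min (α q) (β q)) w := by
  have h := A.ev_comp 1 0 (fun x => min (x 0) (x 1)) ![fun x => α (x 0), fun x => β (x 0)]
    (fun _ => w) isPol_min (by
      intro i
      fin_cases i
      · exact isPol_un 0 hα
      · exact isPol_un 0 hβ)
  unfold mn sm
  refine Eq.trans ?_ h.symm
  congr 1
  funext i
  fin_cases i <;> rfl

theorem mx_sm {α β : ℚ → ℚ} (hα : StrictMono α) (hβ : StrictMono β) (w : Ω) :
    A.mx (A.sm α w) (A.sm β w) = A.sm (fun q => max (α q) (β q)) w := by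
  have h := A.ev_comp 1 0 (fun x => max (x 0) (x 1)) ![fun x => α (x 0), fun x => β (x 0)]
    (fun _ => w) isPol_max (by
      intro i
      fin_cases i
      · exact isPol_un 0 hα
      · exact isPol_un 0 hβ)
  unfold mx sm
  refine Eq.trans ?_ h.symm
  congr 1
  funext i
  fin_cases i <;> rfl

theorem mn_comm (a b : Ω) : A.mn a b = A.mn b a := by
  have h := A.ev_comp 1 1 (fun x => min (x 0) (x 1)) ![fun x => x 1, fun x => x 0]
    ![a, b] isPol_min (by
      intro i
      fin_cases i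
      · exact isPol_proj 1 1
      · exact isPol_proj 1 0)
  have e1 : (fun x : Fin 2 → ℚ => min (x 0) (x 1)) =
      fun x => min ((![fun x => x 1, fun x => x 0] : Fin 2 → (Fin 2 → ℚ) → ℚ) 0 x)
        ((![fun x => x 1, fun x => x 0] : Fin 2 → (Fin 2 → ℚ) → ℚ) 1 x) := by
    funext x
    simp [min_comm]
  unfold mn
  refine Eq.trans (congrArg (fun f => A.ev 1 f ![a, b]) e1) ?_
  refine Eq.trans h ?_
  congr 1
  funext i
  fin_cases i
  · exact A.ev_proj 1 1 _
  · exact A.ev_proj 1 0 _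

/-- `a ≤ b` in the lattice of the action. -/
def le (a b : Ω) : Prop := A.mn a b = a

theorem le_antisymm {a b : Ω} (h : A.le a b) (h' : A.le b a) : a = b := by
  unfold le at h h'
  rw [← h, mn_comm, h']

theorem le_of_sm {α β : ℚ → ℚ} (hα : StrictMono α) (hβ : StrictMono β) (h : ∀ q, α q ≤ β q)
    (w : Ω) : A.le (A.sm α w) (A.sm β w) := by
  unfold le
  rw [A.mn_sm hα hβ]
  congr 1
  funext q
  exact min_eq_left (h q)

theorem sm_mn {α : ℚ → ℚ} (hα : StrictMono α) (a b : Ω) :
    A.sm α (A.mn a b) = A.mn (A.sm α a) (A.sm α b) := by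
  unfold mn
  rw [← A.ev_left hα isPol_min]
  have h := A.ev_right (n := 1) (f := fun x => min (x 0) (x 1)) (α := fun _ => α) isPol_min
    (fun _ => hα) ![a, b]
  have e : (fun x : Fin (1 + 1) → ℚ => α (min (x 0) (x 1))) =
      fun x => min (α (x 0)) (α (x 1)) := by
    funext x
    exact hα.monotone.map_min
  rw [e]
  refine Eq.trans h ?_
  congr 1
  funext i
  fin_cases i <;> rfl

theorem le_sm {α : ℚ → ℚ} (hα : StrictMono α) {a b : Ω} (h : A.le a b) :
    A.le (A.sm α a) (A.sm α b) := by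
  unfold le at *
  rw [← A.sm_mn hα, h]

theorem sm_congr {α β : ℚ → ℚ} (h : ∀ q, α q = β q) (w : Ω) : A.sm α w = A.sm β w := by
  rw [show α = β from funext h]

theorem sm_symm {g : ℚ ≃o ℚ} {a b : Ω} (h : A.sm g a = b) : A.sm g.symm b = a := by
  rw [← h, ← A.sm_comp g.symm.strictMono g.strictMono]
  refine Eq.trans (A.sm_congr (fun q => ?_) a) (A.sm_id a)
  exact g.symm_apply_apply q

theorem sm_symm' {g : ℚ ≃o ℚ} (a : Ω) : A.sm g (A.sm g.symm a) = a := by
  rw [← A.sm_comp g.strictMono g.symm.strictMono]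
  refine Eq.trans (A.sm_congr (fun q => ?_) a) (A.sm_id a)
  exact g.apply_symm_apply q

/-- The truncation argument: if `σ` and the identity agree outside `I`, and `α = σ`, `β = id` on
`I`, then `α w = β w` implies `σ w = w`. -/
theorem trunc {α β σ : ℚ → ℚ} (hα : StrictMono α) (hβ : StrictMono β) (hσ : StrictMono σ)
    (I : Set ℚ) (h1 : ∀ q ∉ I, σ q = q) (h2 : ∀ q ∈ I, α q = σ q) (h3 : ∀ q ∈ I, β q = q)
    (w : Ω) (h : A.sm α w = A.sm β w) : A.sm σ w = w := by
  have hs : StrictMono fun q => max (σ q) q := fun a b hab => max_lt_max (hσ hab) hab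
  have ht : StrictMono fun q => min (σ q) q := fun a b hab => min_lt_min (hσ hab) hab
  have hαs : StrictMono fun q => min (α q) (max (σ q) q) :=
    fun a b hab => min_lt_min (hα hab) (hs hab)
  have hβs : StrictMono fun q => min (β q) (max (σ q) q) :=
    fun a b hab => min_lt_min (hβ hab) (hs hab)
  have key : A.sm (fun q => max (min (α q) (max (σ q) q)) (min (σ q) q)) w =
      A.sm (fun q => max (min (β q) (max (σ q) q)) (min (σ q) q)) w := by
    rw [← A.mx_sm hαs ht, ← A.mx_sm hβs ht, ← A.mn_sm hα hs, ← A.mn_sm hβ hs, h]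
  have e1 : ∀ q, max (min (α q) (max (σ q) q)) (min (σ q) q) = σ q := by
    intro q
    by_cases hq : q ∈ I
    · rw [h2 q hq, min_eq_left (le_max_left _ _), max_eq_left (min_le_left _ _)]
    · rw [h1 q hq, max_self, min_self]
      exact max_eq_right (min_le_right _ _)
  have e2 : ∀ q, max (min (β q) (max (σ q) q)) (min (σ q) q) = q := by
    intro q
    by_cases hq : q ∈ I
    · rw [h3 q hq, min_eq_left (le_max_right _ _), max_eq_left (min_le_right _ _)]
    · rw [h1 q hq, max_self, min_self]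
      exact max_eq_right (min_le_right _ _)
  rw [A.sm_congr e1, A.sm_congr e2, A.sm_id] at key
  exact key

/-- The reversed action. -/
def rev : Act Ω where
  ev n f w := A.ev n (fun x => -f fun i => -x i) w
  ev_proj n i w := by
    simpa using A.ev_proj n i w
  ev_comp k n f g w hf hg := by
    have h := A.ev_comp k n (fun x => -f fun i => -x i) (fun i x => -g i fun j => -x j) w
      (fun x y h => neg_lt_neg (hf _ _ fun i => neg_lt_neg (h i)))
      (fun i x y h => neg_lt_neg (hg i _ _ fun j => neg_lt_neg (h j)))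
    simpa using h

theorem rev_sm (α : ℚ → ℚ) (w : Ω) : A.rev.sm α w = A.sm (fun q => -α (-q)) w := rfl

end Act

end PolQ
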