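import Mathlib

/-!
# Constructing automorphisms of `(ℚ; <)`
-/

namespace PolQ

/-- A convex set without minimum and maximum. -/
structure OC (I : Set ℚ) : Prop where
  conv : I.OrdConnected
  lo : ∀ x ∈ I, ∃ y ∈ I, y < x
  hi : ∀ x ∈ I, ∃ y ∈ I, x < y

theorem OC.ioo (c d : ℚ) : OC (Set.Ioo c d) where
  conv := Set.ordConnected_Ioo
  lo x hx := by
    obtain ⟨y, h1, h2⟩ := exists_between hx.1
    exact ⟨y, ⟨h1, h2.trans hx.2⟩, h2⟩
  hi x hx := by
    obtain ⟨y, h1, h2⟩ := exists_between hx.2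
    exact ⟨y, ⟨hx.1.trans h1, h2⟩, h1⟩

theorem OC.univ : OC Set.univ where
  conv := Set.ordConnected_univ
  lo x _ := ⟨x - 1, trivial, by linarith⟩
  hi x _ := ⟨x + 1, trivial, by linarith⟩

theorem OC.inter {I J : Set ℚ} (hI : OC I) (hJ : OC J) : OC (I ∩ J) where
  conv := hI.conv.inter hJ.conv
  lo x hx := by
    obtain ⟨y, hy, hyx⟩ := hI.lo x hx.1
    obtain ⟨z, hz, hzx⟩ := hJ.lo x hx.2
    refine ⟨max y z, ⟨?_, ?_⟩, max_lt hyx hzx⟩
    · exact hI.conv.out hy hx.1 ⟨le_max_left _ _, (max_lt hyx hzx).le⟩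
    · exact hJ.conv.out hz hx.2 ⟨le_max_right _ _, (max_lt hyx hzx).le⟩
  hi x hx := by
    obtain ⟨y, hy, hyx⟩ := hI.hi x hx.1
    obtain ⟨z, hz, hzx⟩ := hJ.hi x hx.2
    refine ⟨min y z, ⟨?_, ?_⟩, lt_min hyx hzx⟩
    · exact hI.conv.out hx.1 hy ⟨(lt_min hyx hzx).le, min_le_left _ _⟩
    · exact hJ.conv.out hx.2 hz ⟨(lt_min hyx hzx).le, min_le_right _ _⟩

theorem OC.ioi (c : ℚ) : OC (Set.Ioi c) where
  conv := Set.ordConnected_Ioi
  lo x hx := by
    obtain ⟨y, h1, h2⟩ := exists_between (show c < x from hx)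
    exact ⟨y, h1, h2⟩
  hi x hx := ⟨x + 1, lt_trans (show c < x from hx) (by linarith), by linarith⟩

theorem OC.iio (c : ℚ) : OC (Set.Iio c) where
  conv := Set.ordConnected_Iio
  hi x hx := by
    obtain ⟨y, h1, h2⟩ := exists_between (show x < c from hx)
    exact ⟨y, h2, h1⟩
  lo x hx := ⟨x - 1, lt_trans (by linarith) (show x < c from hx), by linarith⟩

theorem OC.union {I J : Set ℚ} (hI : OC I) (hJ : OC J) {t : ℚ} (h1 : t ∈ I) (h2 : t ∈ J) :
    OC (I ∪ J) where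
  conv := by
    refine ⟨?_⟩
    rintro x hx y hy z ⟨hxz, hzy⟩
    rcases le_total z t with hz | hz
    · rcases hx with hx | hx
      · exact Or.inl (hI.conv.out hx h1 ⟨hxz, hz⟩)
      · exact Or.inr (hJ.conv.out hx h2 ⟨hxz, hz⟩)
    · rcases hy with hy | hy
      · exact Or.inl (hI.conv.out h1 hy ⟨hz, hzy⟩)
      · exact Or.inr (hJ.conv.out h2 hy ⟨hz, hzy⟩)
  lo x hx := by
    rcases hx with hx | hx
    · obtain ⟨y, hy, h⟩ := hI.lo x hx
      exact ⟨y, Or.inl hy, h⟩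
    · obtain ⟨y, hy, h⟩ := hJ.lo x hx
      exact ⟨y, Or.inr hy, h⟩
  hi x hx := by
    rcases hx with hx | hx
    · obtain ⟨y, hy, h⟩ := hI.hi x hx
      exact ⟨y, Or.inl hy, h⟩
    · obtain ⟨y, hy, h⟩ := hJ.hi x hx
      exact ⟨y, Or.inr hy, h⟩

/-- An automorphism from a strictly monotone map and a right inverse. -/
noncomputable def mkIso (f g : ℚ → ℚ) (hf : StrictMono f) (h : ∀ q, f (g q) = q) : ℚ ≃o ℚ :=
  StrictMono.orderIsoOfRightInverse f hf g h

@[simp] theorem mkIso_apply (f g : ℚ → ℚ) (hf : StrictMono f) (h : ∀ q, f (g q) = q) (q : ℚ) :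
    mkIso f g hf h q = f q := rfl

/-- Points of convex disjoint sets are ordered like the sets. -/
theorem lt_of_conv {C : Set ℚ} (hC : C.OrdConnected) {a b q : ℚ} (ha : a ∈ C) (hb : b ∉ C)
    (hq : q ∈ C) (hab : a < b) : q < b := by
  by_contra h
  exact hb (hC.out ha hq ⟨hab.le, not_lt.1 h⟩)

theorem lt_of_conv' {C : Set ℚ} (hC : C.OrdConnected) {a b q : ℚ} (ha : a ∈ C) (hb : b ∉ C)
    (hq : q ∈ C) (hab : b < a) : b < q := by
  by_contra h
  exact hb (hC.out hq ha ⟨not_lt.1 h, hab.le⟩)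

open Classical in
theorem strictMono_restr {g : ℚ → ℚ} (hg : StrictMono g) {C : Set ℚ} (hC : C.OrdConnected)
    (h : ∀ q ∈ C, g q ∈ C) : StrictMono fun q => if q ∈ C then g q else q := by
  intro a b hab
  by_cases ha : a ∈ C <;> by_cases hb : b ∈ C <;> simp only [ha, hb, if_true, if_false]
  · exact hg hab
  · exact lt_of_conv hC ha hb (h a ha) hab
  · exact lt_of_conv' hC hb ha (h b hb) hab
  · exact hab

/-- Splitting an automorphism along an invariant convex set. -/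
theorem exists_split (g : ℚ ≃o ℚ) {C : Set ℚ} (hC : C.OrdConnected)
    (h : ∀ q, g q ∈ C ↔ q ∈ C) :
    ∃ g₁ g₂ : ℚ ≃o ℚ, (∀ q ∈ C, g₁ q = g q) ∧ (∀ q ∉ C, g₁ q = q) ∧ (∀ q ∈ C, g₂ q = q) ∧
      (∀ q ∉ C, g₂ q = g q) ∧ ∀ q, g q = g₂ (g₁ q) := by
  classical
  have h' : ∀ q, g.symm q ∈ C ↔ q ∈ C := fun q => by
    rw [← h (g.symm q), g.apply_symm_apply]
  let g₁ : ℚ ≃o ℚ := mkIso (fun q => if q ∈ C then g q else q)
    (fun q => if q ∈ C then g.symm q else q)
    (strictMono_restr g.strictMono hC fun q hq => (h q).2 hq) (by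
      intro q
      by_cases hq : q ∈ C
      · simp [hq, h']
      · simp [hq])
  have e1 : ∀ q ∈ C, g₁ q = g q := fun q hq => by simp [g₁, hq]
  have e2 : ∀ q ∉ C, g₁ q = q := fun q hq => by simp [g₁, hq]
  have e1' : ∀ q ∈ C, g₁.symm q = g.symm q := fun q hq => by
    rw [OrderIso.symm_apply_eq, e1 _ ((h' q).2 hq), g.apply_symm_apply]
  have e2' : ∀ q ∉ C, g₁.symm q = q := fun q hq => by
    rw [OrderIso.symm_apply_eq, e2 _ hq]
  refine ⟨g₁, g₁.symm.trans g, e1, e2, ?_, ?_, ?_⟩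
  · intro q hq
    rw [OrderIso.trans_apply, e1' q hq, g.apply_symm_apply]
  · intro q hq
    rw [OrderIso.trans_apply, e2' q hq]
  · intro q
    rw [OrderIso.trans_apply, OrderIso.symm_apply_apply]

/-- Transferring an automorphism of `ℚ` to a convex set isomorphic to `ℚ`. -/
theorem exists_lift {J : Set ℚ} (hJ : J.OrdConnected) (e : J ≃o ℚ) (γ : ℚ ≃o ℚ) :
    ∃ g : ℚ ≃o ℚ, (∀ q ∉ J, g q = q) ∧ ∀ x : J, g x = e.symm (γ (e x)) := by
  classical
  have hmono : ∀ γ : ℚ ≃o ℚ,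
      StrictMono fun q => if h : q ∈ J then (e.symm (γ (e ⟨q, h⟩)) : ℚ) else q := by
    intro γ a b hab
    by_cases ha : a ∈ J <;> by_cases hb : b ∈ J <;> simp only [ha, hb, dif_pos, dif_neg,
      not_false_eq_true]
    · exact e.symm.strictMono (γ.strictMono (e.strictMono (show (⟨a, ha⟩ : J) < ⟨b, hb⟩ from hab)))
    · exact lt_of_conv hJ ha hb (Subtype.coe_prop _) hab
    · exact lt_of_conv' hJ hb ha (Subtype.coe_prop _) hab
    · exact hab
  refine ⟨mkIso (fun q => if h : q ∈ J then (e.symm (γ (e ⟨q, h⟩)) : ℚ) else q)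
    (fun q => if h : q ∈ J then (e.symm (γ.symm (e ⟨q, h⟩)) : ℚ) else q) (hmono γ) ?_, ?_, ?_⟩
  · intro q
    by_cases hq : q ∈ J
    · simp [hq]
    · simp [hq]
  · intro q hq
    simp [hq]
  · intro x
    simp

theorem OC.exists_iso {J : Set ℚ} (hJ : OC J) (hne : J.Nonempty) : Nonempty (J ≃o ℚ) := by
  have : J.OrdConnected := hJ.conv
  have : Nonempty J := hne.to_subtype
  have : NoMinOrder J := ⟨fun x => by
    obtain ⟨y, hy, hyx⟩ := hJ.lo x x.2
    exact ⟨⟨y, hy⟩, hyx⟩⟩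
  have : NoMaxOrder J := ⟨fun x => by
    obtain ⟨y, hy, hyx⟩ := hJ.hi x x.2
    exact ⟨⟨y, hy⟩, hyx⟩⟩
  exact Order.iso_of_countable_dense J ℚ

/-- Translation by `c`. -/
noncomputable def shift (c : ℚ) : ℚ ≃o ℚ :=
  mkIso (fun q => q + c) (fun q => q - c) (fun a b h => by simpa using h) fun q => by ring

@[simp] theorem shift_apply (c q : ℚ) : shift c q = q + c := rfl

/-- Dilation by `2` with centre `c`. -/
noncomputable def dil (c : ℚ) : ℚ ≃o ℚ :=
  mkIso (fun q => c + 2 * (q - c)) (fun q => c + (q - c) / 2) (fun a b h => by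
    show c + 2 * (a - c) < c + 2 * (b - c)
    linarith) fun q => by ring

@[simp] theorem dil_apply (c q : ℚ) : dil c q = c + 2 * (q - c) := rfl

/-- Moving a point inside a convex set. -/
theorem exists_move {J : Set ℚ} (hJ : OC J) {t t' : ℚ} (ht : t ∈ J) (ht' : t' ∈ J) :
    ∃ k : ℚ ≃o ℚ, (∀ q ∉ J, k q = q) ∧ k t = t' := by
  obtain ⟨e⟩ := hJ.exists_iso ⟨t, ht⟩
  obtain ⟨g, h1, h2⟩ := exists_lift hJ.conv e (shift (e ⟨t', ht'⟩ - e ⟨t, ht⟩))
  refine ⟨g, h1, ?_⟩
  have := h2 ⟨t, ht⟩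
  rw [shift_apply, add_sub_cancel, e.symm_apply_apply] at this
  exact this

/-- The set of points above finitely many given points. -/
theorem OC.above (F : Finset ℚ) : OC {q | ∀ p ∈ F, p < q} where
  conv := ⟨fun _ hx _ _ _ hz p hp => (hx p hp).trans_le hz.1⟩
  hi x hx := ⟨x + 1, fun p hp => (hx p hp).trans (by linarith), by linarith⟩
  lo := by
    induction F using Finset.induction_on with
    | empty => exact fun x _ => ⟨x - 1, by simp, by linarith⟩
    | insert a F _ ih =>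
      intro x hx
      obtain ⟨y, hy, hyx⟩ := ih x fun p hp => hx p (Finset.mem_insert_of_mem hp)
      obtain ⟨z, hz, hzx⟩ := exists_between (hx a (Finset.mem_insert_self a F))
      refine ⟨max y z, ?_, max_lt hyx hzx⟩
      intro p hp
      rcases Finset.mem_insert.1 hp with rfl | hp
      · exact hz.trans_le (le_max_right _ _)
      · exact (hy p hp).trans_le (le_max_left _ _)

/-- Finite strictly monotone partial maps extend to automorphisms. -/
theorem exists_extend (F : Finset ℚ) : ∀ φ : ℚ → ℚ, StrictMonoOn φ F →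
    ∃ g : ℚ ≃o ℚ, ∀ p ∈ F, g p = φ p := by
  induction F using Finset.induction_on_max with
  | empty => exact fun φ _ => ⟨OrderIso.refl ℚ, by simp⟩
  | insert a F ha ih =>
    intro φ hφ
    obtain ⟨g, hg⟩ := ih φ (hφ.mono (by simp))
    have hJ := OC.above (F.image φ)
    have h1 : g a ∈ {q | ∀ p ∈ F.image φ, p < q} := by
      intro p hp
      obtain ⟨x, hx, rfl⟩ := Finset.mem_image.1 hp
      rw [← hg x hx]
      exact g.strictMono (ha x hx)
    have h2 : φ a ∈ {q | ∀ p ∈ F.image φ, p < q} := by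
      intro p hp
      obtain ⟨x, hx, rfl⟩ := Finset.mem_image.1 hp
      exact hφ (by simp [hx]) (by simp) (ha x hx)
    obtain ⟨k, hk1, hk2⟩ := exists_move hJ h1 h2
    refine ⟨g.trans k, ?_⟩
    intro p hp
    rcases Finset.mem_insert.1 hp with rfl | hp
    · exact hk2
    · rw [OrderIso.trans_apply, hg p hp]
      refine hk1 _ fun h => ?_
      exact lt_irrefl _ (h (φ p) (Finset.mem_image_of_mem φ hp))

/-- Gluing along two monotone maps to a linear order. -/
theorem exists_glue {ι : Type} [LinearOrder ι] {r r' : ℚ → ι} (hr : Monotone r)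
    (hr' : Monotone r') (e : ∀ i, Nonempty ({q // r q = i} ≃o {q // r' q = i})) :
    ∃ h : ℚ ≃o ℚ, ∀ q, r' (h q) = r q := by
  classical
  let e : ∀ i, {q // r q = i} ≃o {q // r' q = i} := fun i => (e i).some
  let h : ℚ → ℚ := fun q => e (r q) ⟨q, rfl⟩
  have h1 : ∀ (i : ι) (q : ℚ) (hq : r q = i), h q = e i ⟨q, hq⟩ := by
    rintro i q rfl
    rfl
  have h2 : ∀ q, r' (h q) = r q := fun q => (e (r q) ⟨q, rfl⟩).2
  have hm : StrictMono h := by
    intro a b hab
    rcases (hr hab.le).lt_or_eq with hlt | heq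
    · rw [← h2 a, ← h2 b] at hlt
      by_contra hcon
      exact absurd (hr' (not_lt.1 hcon)) (not_le.2 hlt)
    · rw [h1 (r b) a heq, h1 (r b) b rfl]
      exact (e (r b)).strictMono (show (⟨a, heq⟩ : {q // r q = r b}) < ⟨b, rfl⟩ from hab)
  refine ⟨mkIso h (fun q => (e (r' q)).symm ⟨q, rfl⟩) hm ?_, h2⟩
  intro q
  rw [h1 (r' q) _ ((e (r' q)).symm ⟨q, rfl⟩).2]
  simp

open Classical in
/-- The regions of a cut between `c` and `d`. -/
noncomputable def gapReg (c d : ℚ) (T : Set ℚ) (q : ℚ) : Fin 4 :=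
  if q ∈ T then (if q ≤ c then 0 else 1) else (if q < d then 2 else 3)

theorem gapReg_mono {c d : ℚ} {T : Set ℚ} (hT : IsLowerSet T) : Monotone (gapReg c d T) := by
  intro a b hab
  unfold gapReg
  by_cases hb : b ∈ T
  · have ha : a ∈ T := hT hab hb
    by_cases h2 : b ≤ c
    · have h1 : a ≤ c := hab.trans h2
      simp [ha, hb, h1, h2]
    · by_cases h1 : a ≤ c
      · simp [ha, hb, h1, h2]
      · simp [ha, hb, h1, h2]
  · by_cases ha : a ∈ T
    · by_cases h1 : a ≤ c <;> by_cases h2 : b < d <;> simp [ha, hb, h1, h2]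
    · by_cases h2 : b < d
      · have h1 : a < d := hab.trans_lt h2
        simp [ha, hb, h1, h2]
      · by_cases h1 : a < d
        · simp [ha, hb, h1, h2]
        · simp [ha, hb, h1, h2]

theorem gapReg_zero {c d : ℚ} {T : Set ℚ} (hT : IsLowerSet T) (hc : c ∈ T) :
    {q | gapReg c d T q = 0} = Set.Iic c := by
  ext q
  simp only [Set.mem_ofPred_eq, Set.mem_Iic, gapReg]
  by_cases h : q ∈ T
  · by_cases h1 : q ≤ c <;> simp [h, h1]
  · have h1 : ¬ q ≤ c := fun h1 => h (hT h1 hc)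
    by_cases h2 : q < d <;> simp [h, h1, h2]

theorem gapReg_three {c d : ℚ} {T : Set ℚ} (hT : IsLowerSet T) (hd : d ∉ T) :
    {q | gapReg c d T q = 3} = Set.Ici d := by
  ext q
  simp only [Set.mem_ofPred_eq, Set.mem_Ici, gapReg]
  by_cases h : q ∈ T
  · have h2 : ¬ d ≤ q := fun h2 => hd (hT h2 h)
    by_cases h1 : q ≤ c <;> simp [h, h1, not_le.1 h2]
  · by_cases h2 : q < d
    · simp [h, h2]
    · simp [h, h2, not_lt.1 h2]

theorem gapReg_one {c d : ℚ} {T : Set ℚ} :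
    {q | gapReg c d T q = 1} = T ∩ Set.Ioi c := by
  ext q
  simp only [Set.mem_ofPred_eq, Set.mem_inter_iff, Set.mem_Ioi, gapReg]
  by_cases h : q ∈ T
  · by_cases h1 : q ≤ c
    · simp [h, h1]
    · simp [h, not_le.1 h1]
  · by_cases h2 : q < d <;> simp [h, h2]

theorem gapReg_two {c d : ℚ} {T : Set ℚ} :
    {q | gapReg c d T q = 2} = Tᶜ ∩ Set.Iio d := by
  ext q
  simp only [Set.mem_ofPred_eq, Set.mem_inter_iff, Set.mem_Iio, gapReg, Set.mem_compl_iff]
  by_cases h : q ∈ T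
  · by_cases h1 : q ≤ c <;> simp [h, h1]
  · by_cases h2 : q < d <;> simp [h, h2]

theorem nonempty_iso {I J : Set ℚ} (hI : OC I) (hJ : OC J) (h1 : I.Nonempty)
    (h2 : J.Nonempty) : Nonempty (I ≃o J) := by
  obtain ⟨e⟩ := hI.exists_iso h1
  obtain ⟨e'⟩ := hJ.exists_iso h2
  exact ⟨e.trans e'.symm⟩

/-- Automorphisms moving a gap to another gap. -/
theorem exists_gap_move {c d : ℚ} {T T' : Set ℚ} (hT : IsLowerSet T) (hT' : IsLowerSet T')
    (hc : c ∈ T) (hc' : c ∈ T') (hd : d ∉ T) (hd' : d ∉ T')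
    (h1 : OC (T ∩ Set.Ioi c)) (h1' : OC (T' ∩ Set.Ioi c))
    (h2 : OC (Tᶜ ∩ Set.Iio d)) (h2' : OC (T'ᶜ ∩ Set.Iio d))
    (n1 : (T ∩ Set.Ioi c).Nonempty) (n1' : (T' ∩ Set.Ioi c).Nonempty)
    (n2 : (Tᶜ ∩ Set.Iio d).Nonempty) (n2' : (T'ᶜ ∩ Set.Iio d).Nonempty) :
    ∃ h : ℚ ≃o ℚ, (∀ q ∉ Set.Ioo c d, h q = q) ∧ ∀ q, h q ∈ T' ↔ q ∈ T := by
  have key : ∀ i : Fin 4, Nonempty ({q // gapReg c d T q = i} ≃o {q // gapReg c d T' q = i}) := by
    intro i
    fin_cases i
    · have e1 := gapReg_zero (d := d) hT hc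
      have e2 := gapReg_zero (d := d) hT' hc'
      exact ⟨OrderIso.setCongr {q | gapReg c d T q = 0} {q | gapReg c d T' q = 0}
        (e1.trans e2.symm)⟩
    · rw [← gapReg_one (d := d)] at h1 h1' n1 n1'
      exact nonempty_iso h1 h1' n1 n1'
    · rw [← gapReg_two (c := c)] at h2 h2' n2 n2'
      exact nonempty_iso h2 h2' n2 n2'
    · have e1 := gapReg_three (c := c) hT hd
      have e2 := gapReg_three (c := c) hT' hd'
      exact ⟨OrderIso.setCongr {q | gapReg c d T q = 3} {q | gapReg c d T' q = 3}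
        (e1.trans e2.symm)⟩
  obtain ⟨h, hh⟩ := exists_glue (gapReg_mono hT) (gapReg_mono hT') key
  have m0 : ∀ q, h q ≤ c ↔ q ≤ c := fun q => by
    have a1 := Set.ext_iff.1 (gapReg_zero (d := d) hT hc) q
    have a2 := Set.ext_iff.1 (gapReg_zero (d := d) hT' hc') (h q)
    simp only [Set.mem_ofPred_eq, Set.mem_Iic] at a1 a2
    rw [← a1, ← a2, hh]
  have m3 : ∀ q, d ≤ h q ↔ d ≤ q := fun q => by
    have a1 := Set.ext_iff.1 (gapReg_three (c := c) hT hd) q
    have a2 := Set.ext_iff.1 (gapReg_three (c := c) hT' hd') (h q)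
    simp only [Set.mem_ofPred_eq, Set.mem_Ici] at a1 a2
    rw [← a1, ← a2, hh]
  have m1 : ∀ q, (h q ∈ T' ∧ c < h q) ↔ (q ∈ T ∧ c < q) := fun q => by
    have a1 := Set.ext_iff.1 (gapReg_one (c := c) (d := d) (T := T)) q
    have a2 := Set.ext_iff.1 (gapReg_one (c := c) (d := d) (T := T')) (h q)
    simp only [Set.mem_ofPred_eq, Set.mem_inter_iff, Set.mem_Ioi] at a1 a2
    rw [← a1, ← a2, hh]
  have hC : ∀ q, h q ∈ Set.Ioo c d ↔ q ∈ Set.Ioo c d := fun q => by
    have b0 := m0 q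
    have b3 := m3 q
    simp only [Set.mem_Ioo]
    rw [← not_le, ← not_le, ← not_le, ← not_le, b0, b3]
  obtain ⟨g, -, g1, g2, -⟩ := exists_split h (C := Set.Ioo c d) Set.ordConnected_Ioo hC
  refine ⟨g, g2, fun q => ?_⟩
  by_cases hq : q ∈ Set.Ioo c d
  · rw [g1 q hq]
    have := m1 q
    have b := (hC q).2 hq
    simp only [hq.1, b.1, and_true] at this
    exact this
  · rw [g2 q hq]
    by_cases hqc : q ≤ c
    · exact ⟨fun _ => hT hqc hc, fun _ => hT' hqc hc'⟩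
    · have hdq : d ≤ q := by
        by_contra h3
        exact hq ⟨not_le.1 hqc, not_le.1 h3⟩
      exact ⟨fun h3 => absurd (hT' hdq h3) hd', fun h3 => absurd (hT hdq h3) hd⟩

/-- A piecewise linear automorphism with prescribed growth. -/
theorem exists_pl (b : ℕ → ℚ) : ∃ γ : ℚ ≃o ℚ, ∀ n : ℕ, b n ≤ γ n := by
  let s : ℕ → ℕ := fun n => ∑ i ∈ Finset.range (n + 1), ⌈|b i|⌉₊
  have hs : Monotone s := by
    intro m n hmn
    exact Finset.sum_le_sum_of_subset (by simpa using hmn)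
  have hsb : ∀ n, b n ≤ s n := by
    intro n
    have h1 : ⌈|b n|⌉₊ ≤ s n :=
      Finset.single_le_sum (f := fun i => ⌈|b i|⌉₊) (fun _ _ => Nat.zero_le _) (by simp)
    calc b n ≤ |b n| := le_abs_self _
      _ ≤ (⌈|b n|⌉₊ : ℚ) := Nat.le_ceil _
      _ ≤ s n := by exact_mod_cast h1
  let a : ℤ → ℤ := fun n => n + s n.toNat
  have ha : StrictMono a := by
    intro m n hmn
    have : s m.toNat ≤ s n.toNat := hs (Int.toNat_le_toNat hmn.le)
    show m + (s m.toNat : ℤ) < n + (s n.toNat : ℤ)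
    have h2 : (s m.toNat : ℤ) ≤ s n.toNat := by exact_mod_cast this
    omega
  let γ : ℚ → ℚ := fun x => a ⌊x⌋ + Int.fract x * (a (⌊x⌋ + 1) - a ⌊x⌋)
  have hpos : ∀ n : ℤ, (0 : ℚ) < a (n + 1) - a n := fun n => by
    have : a n < a (n + 1) := ha (by omega)
    have h2 : (a n : ℚ) < a (n + 1) := by exact_mod_cast this
    linarith
  have hγ : StrictMono γ := by
    intro x y hxy
    rcases (Int.floor_mono hxy.le).lt_or_eq with h | h
    · have h1 : (a (⌊x⌋ + 1) : ℚ) ≤ a ⌊y⌋ := by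
        exact_mod_cast ha.monotone (by omega)
      have h2 : γ x < a (⌊x⌋ + 1) := by
        have h3 := Int.fract_lt_one x
        have h4 := mul_lt_mul_of_pos_right h3 (hpos ⌊x⌋)
        show (a ⌊x⌋ : ℚ) + Int.fract x * (a (⌊x⌋ + 1) - a ⌊x⌋) < a (⌊x⌋ + 1)
        linarith
      have h5 : (a ⌊y⌋ : ℚ) ≤ γ y := by
        have h3 := Int.fract_nonneg y
        have h4 := mul_nonneg h3 (hpos ⌊y⌋).le
        show (a ⌊y⌋ : ℚ) ≤ a ⌊y⌋ + Int.fract y * (a (⌊y⌋ + 1) - a ⌊y⌋)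
        linarith
      linarith
    · have h1 : Int.fract x < Int.fract y := by
        unfold Int.fract
        rw [h]
        linarith
      show (a ⌊x⌋ : ℚ) + Int.fract x * (a (⌊x⌋ + 1) - a ⌊x⌋) <
        a ⌊y⌋ + Int.fract y * (a (⌊y⌋ + 1) - a ⌊y⌋)
      rw [← h]
      have := mul_lt_mul_of_pos_right h1 (hpos ⌊x⌋)
      linarith
  have hsurj : Function.Surjective γ := by
    intro y
    obtain ⟨n, hn, hn'⟩ := Int.exists_greatest_of_bdd (P := fun n => (a n : ℚ) ≤ y)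
      ⟨⌊y⌋, fun z hz => by
        rw [Int.le_floor]
        have : (z : ℚ) ≤ a z := by
          show (z : ℚ) ≤ ((z + s z.toNat : ℤ) : ℚ)
          push_cast
          have : (0 : ℚ) ≤ s z.toNat := by positivity
          linarith
        linarith⟩
      ⟨min (⌊y⌋ - s 0) 0, by
        have h0 : (min (⌊y⌋ - s 0 : ℤ) 0).toNat = 0 := by
          rw [Int.toNat_eq_zero]
          exact min_le_right _ _
        show ((min (⌊y⌋ - s 0 : ℤ) 0 + (s (min (⌊y⌋ - s 0 : ℤ) 0).toNat : ℤ) : ℤ) : ℚ) ≤ y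
        rw [h0]
        have h1 : min (⌊y⌋ - s 0 : ℤ) 0 + (s 0 : ℤ) ≤ ⌊y⌋ := by
          have := min_le_left (⌊y⌋ - s 0 : ℤ) 0
          omega
        calc (((min (⌊y⌋ - s 0 : ℤ) 0 + (s 0 : ℤ) : ℤ)) : ℚ) ≤ ((⌊y⌋ : ℤ) : ℚ) := by
              exact_mod_cast h1
          _ ≤ y := Int.floor_le y⟩
    have hy2 : y < a (n + 1) := by
      by_contra h
      have := hn' (n + 1) (not_lt.1 h)
      omega
    have hp := hpos n
    have hf : ⌊(n : ℚ) + (y - a n) / (a (n + 1) - a n)⌋ = n := by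
      rw [Int.floor_eq_iff]
      constructor
      · have : 0 ≤ (y - a n) / (a (n + 1) - a n) := div_nonneg (by linarith) hp.le
        linarith
      · have : (y - a n) / (a (n + 1) - a n) < 1 := by
          rw [div_lt_one hp]
          linarith
        linarith
    refine ⟨n + (y - a n) / (a (n + 1) - a n), ?_⟩
    show (a ⌊(n : ℚ) + (y - a n) / (a (n + 1) - a n)⌋ : ℚ) +
      Int.fract ((n : ℚ) + (y - a n) / (a (n + 1) - a n)) *
        (a (⌊(n : ℚ) + (y - a n) / (a (n + 1) - a n)⌋ + 1) -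
          a ⌊(n : ℚ) + (y - a n) / (a (n + 1) - a n)⌋) = y
    unfold Int.fract
    rw [hf, add_sub_cancel_left, div_mul_cancel₀ _ hp.ne']
    ring
  refine ⟨StrictMono.orderIsoOfSurjective γ hγ hsurj, fun n => ?_⟩
  show b n ≤ γ n
  show b n ≤ (a ⌊(n : ℚ)⌋ : ℚ) + Int.fract (n : ℚ) * (a (⌊(n : ℚ)⌋ + 1) - a ⌊(n : ℚ)⌋)
  rw [Int.fract_natCast, Int.floor_natCast, zero_mul, add_zero]
  show b n ≤ (((n : ℤ) + s (n : ℤ).toNat : ℤ) : ℚ)
  rw [Int.toNat_natCast]
  push_cast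
  have := hsb n
  have h0 : (0 : ℚ) ≤ n := Nat.cast_nonneg n
  linarith

/-- The maximum of two automorphisms. -/
theorem exists_sup (g h : ℚ ≃o ℚ) : ∃ k : ℚ ≃o ℚ, ∀ q, k q = max (g q) (h q) := by
  refine ⟨mkIso (fun q => max (g q) (h q)) (fun q => min (g.symm q) (h.symm q))
    (fun a b hab => max_lt_max (g.strictMono hab) (h.strictMono hab)) ?_, fun _ => rfl⟩
  intro q
  rcases le_total (g.symm q) (h.symm q) with hl | hl
  · rw [min_eq_left hl, g.apply_symm_apply, max_eq_left]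
    rw [← h.apply_symm_apply q]
    refine h.monotone ?_
    rwa [h.apply_symm_apply]
  · rw [min_eq_right hl, h.apply_symm_apply, max_eq_right]
    rw [← g.apply_symm_apply q]
    refine g.monotone ?_
    rwa [g.apply_symm_apply]

/-- The points in the same position as `p` relative to `E`. -/
def cell (E : Finset ℚ) (p : ℚ) : Set ℚ := {x | ∀ a ∈ E, (a < p ↔ a < x) ∧ (p < a ↔ x < a)}

theorem mem_cell_self (E : Finset ℚ) (p : ℚ) : p ∈ cell E p := fun _ _ => ⟨Iff.rfl, Iff.rfl⟩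

theorem cell_insert (E : Finset ℚ) (a p : ℚ) :
    cell (insert a E) p = {x | (a < p ↔ a < x) ∧ (p < a ↔ x < a)} ∩ cell E p := by
  ext x
  simp [cell]

theorem OC.cell (E : Finset ℚ) {p : ℚ} (hp : p ∉ E) : OC (cell E p) := by
  induction E using Finset.induction_on with
  | empty =>
    have : PolQ.cell ∅ p = Set.univ := by
      ext
      simp [PolQ.cell]
    rw [this]
    exact OC.univ
  | insert a E _ ih =>
    rw [cell_insert]
    refine OC.inter ?_ (ih fun h => hp (Finset.mem_insert_of_mem h))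
    have hne : p ≠ a := fun h => hp (by rw [h]; exact Finset.mem_insert_self a E)
    rcases lt_or_gt_of_ne hne with h | h
    · have : {x | (a < p ↔ a < x) ∧ (p < a ↔ x < a)} = Set.Iio a := by
        ext x
        simp only [Set.mem_ofPred_eq, Set.mem_Iio, h, true_iff, not_lt.2 h.le, false_iff,
          not_lt]
        exact ⟨fun h => h.2, fun h => ⟨h.le, h⟩⟩
      rw [this]
      exact OC.iio a
    · have : {x | (a < p ↔ a < x) ∧ (p < a ↔ x < a)} = Set.Ioi a := by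
        ext x
        simp only [Set.mem_ofPred_eq, Set.mem_Ioi, h, true_iff, not_lt.2 h.le, false_iff,
          not_lt]
        exact ⟨fun h => h.1, fun h => ⟨h, h.le⟩⟩
      rw [this]
      exact OC.ioi a

end PolQ
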