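import Pool.Agent.Hhelper75.PolQ.Auto

/-!
# Two copies of `ℚ` over a finite set, and an embedding for values in a lexicographic product
-/

namespace PolQ

/-- The number of points of `P` below `q`. -/
def cnt (P : Finset ℚ) (q : ℚ) : ℕ := (P.filter (· < q)).card

theorem cnt_mono (P : Finset ℚ) : Monotone (cnt P) := by
  intro a b hab
  refine Finset.card_le_card fun p hp => ?_
  rw [Finset.mem_filter] at hp ⊢
  exact ⟨hp.1, hp.2.trans_le hab⟩

theorem cnt_lt {P : Finset ℚ} {p q : ℚ} (hp : p ∈ P) (h : p < q) : cnt P p < cnt P q := by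
  refine Finset.card_lt_card ⟨fun a ha => ?_, fun hcon => ?_⟩
  · rw [Finset.mem_filter] at ha ⊢
    exact ⟨ha.1, ha.2.trans h⟩
  · have : p ∈ P.filter (· < p) := hcon (Finset.mem_filter.2 ⟨hp, h⟩)
    exact lt_irrefl _ (Finset.mem_filter.1 this).2

theorem exists_of_cnt_lt {P : Finset ℚ} {y z : ℚ} (h : cnt P y < cnt P z) :
    ∃ p ∈ P, y ≤ p ∧ p < z := by
  by_contra hcon
  push Not at hcon
  refine absurd h (not_lt.2 (Finset.card_le_card fun p hp => ?_))
  rw [Finset.mem_filter] at hp ⊢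
  refine ⟨hp.1, ?_⟩
  by_contra h2
  exact absurd hp.2 (not_lt.2 (hcon p hp.1 (not_lt.1 h2)))

theorem cnt_le (P : Finset ℚ) (q : ℚ) : cnt P q ≤ P.card := Finset.card_filter_le _ _

theorem cnt_map {P : Finset ℚ} {α : ℚ → ℚ} (hα : StrictMono α) (h : ∀ p ∈ P, α p = p) (q : ℚ) :
    cnt P (α q) = cnt P q := by
  unfold cnt
  congr 1
  refine Finset.filter_congr fun p hp => ?_
  conv_lhs => rw [← h p hp]
  exact hα.lt_iff_lt

/-- Two embeddings of `ℚ` over `P`, one gap by gap below the other. -/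
structure Copies (P : Finset ℚ) (α β : ℚ → ℚ) : Prop where
  monoα : StrictMono α
  monoβ : StrictMono β
  fixα : ∀ p ∈ P, α p = p
  fixβ : ∀ p ∈ P, β p = p
  lt_iff : ∀ z y, α z < β y ↔ cnt P z < cnt P y ∨ (cnt P z = cnt P y ∧ z ∉ P)

theorem Copies.eq {P : Finset ℚ} {α β : ℚ → ℚ} (h : Copies P α β) {z y : ℚ} (he : α z = β y) :
    y ∈ P := by
  have h1 : ¬ α z < β y := by rw [he]; exact lt_irrefl _
  rw [h.lt_iff] at h1
  push Not at h1
  obtain ⟨h2, h3⟩ := h1
  by_cases hz : z ∈ P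
  · rw [h.fixα z hz, ← h.fixβ z hz] at he
    rw [← h.monoβ.injective he]
    exact hz
  · have h4 : cnt P z ≠ cnt P y := fun h5 => hz (h3 h5)
    obtain ⟨p, hp, hp1, hp2⟩ := exists_of_cnt_lt (lt_of_le_of_ne h2 h4.symm)
    have h6 : β y ≤ p := by
      rw [← h.fixβ p hp]
      exact h.monoβ.monotone hp1
    have h7 : p < α z := by
      rw [← h.fixα p hp]
      exact h.monoα hp2
    rw [he] at h7
    exact absurd h7 (not_lt.2 h6)

theorem Copies.memα {P : Finset ℚ} {α β : ℚ → ℚ} (h : Copies P α β) {z : ℚ} :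
    α z ∈ P ↔ z ∈ P := by
  refine ⟨fun hz => ?_, fun hz => by rwa [h.fixα z hz]⟩
  have := h.monoα.injective (h.fixα _ hz)
  rwa [this] at hz

theorem Copies.memβ {P : Finset ℚ} {α β : ℚ → ℚ} (h : Copies P α β) {z : ℚ} :
    β z ∈ P ↔ z ∈ P := by
  refine ⟨fun hz => ?_, fun hz => by rwa [h.fixβ z hz]⟩
  have := h.monoβ.injective (h.fixβ _ hz)
  rwa [this] at hz

theorem exists_copies (P : Finset ℚ) : ∃ α β, Copies P α β := by
  classical
  have hcount : Countable (ℕ ×ₗ (ℕ ×ₗ ℚ)) := inferInstanceAs (Countable (ℕ × (ℕ × ℚ)))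
  obtain ⟨e⟩ := Order.embedding_from_countable_to_dense (ℕ ×ₗ (ℕ ×ₗ ℚ)) ℚ
  let t : ℕ → ℚ → ℕ := fun i q => if q ∈ P then 2 else i
  let f : ℕ → ℚ → (ℕ ×ₗ (ℕ ×ₗ ℚ)) := fun i q => toLex (cnt P q, toLex (t i q, q))
  have hlt : ∀ i j z y, f i z < f j y ↔ cnt P z < cnt P y ∨ (cnt P z = cnt P y ∧
      (t i z < t j y ∨ (t i z = t j y ∧ z < y))) := by
    intro i j z y
    simp only [f, Prod.Lex.lt_iff, ofLex_toLex]
  have hm : ∀ i ≤ 2, StrictMono (f i) := by
    intro i hi a b hab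
    rw [hlt]
    rcases (cnt_mono P hab.le).lt_or_eq with h | h
    · exact Or.inl h
    · refine Or.inr ⟨h, ?_⟩
      have ha : a ∉ P := fun ha => absurd (cnt_lt ha hab) (by omega)
      by_cases hb : b ∈ P
      · rcases hi.lt_or_eq with hi | hi
        · left
          simp only [t, if_neg ha, if_pos hb]
          exact hi
        · right
          simp only [t, if_neg ha, if_pos hb]
          exact ⟨hi, hab⟩
      · right
        simp only [t, if_neg ha, if_neg hb]
        exact ⟨trivial, hab⟩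
  have hP : ∀ i j, ∀ p ∈ P, f i p = f j p := by
    intro i j p hp
    simp only [f, t, if_pos hp]
  obtain ⟨h, hh⟩ := exists_extend P (fun q => e (f 0 q))
    ((e.strictMono.comp (hm 0 (by omega))).strictMonoOn _)
  refine ⟨fun q => h.symm (e (f 0 q)), fun q => h.symm (e (f 1 q)),
    h.symm.strictMono.comp (e.strictMono.comp (hm 0 (by omega))),
    h.symm.strictMono.comp (e.strictMono.comp (hm 1 (by omega))), ?_, ?_, ?_⟩
  · intro p hp
    show h.symm (e (f 0 p)) = p
    rw [← hh p hp, h.symm_apply_apply]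
  · intro p hp
    show h.symm (e (f 1 p)) = p
    rw [hP 1 0 p hp, ← hh p hp, h.symm_apply_apply]
  · intro z y
    rw [h.symm.lt_iff_lt, e.lt_iff_lt, hlt]
    constructor
    · rintro (h1 | ⟨h1, h2⟩)
      · exact Or.inl h1
      · refine Or.inr ⟨h1, fun hz => ?_⟩
        by_cases hy : y ∈ P
        · simp only [t, if_pos hz, if_pos hy, lt_irrefl, false_or, true_and] at h2
          exact absurd (cnt_lt hz h2) (by omega)
        · simp only [t, if_pos hz, if_neg hy] at h2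
          omega
    · rintro (h1 | ⟨h1, h2⟩)
      · exact Or.inl h1
      · refine Or.inr ⟨h1, Or.inl ?_⟩
        by_cases hy : y ∈ P
        · simp [t, if_neg h2, if_pos hy]
        · simp [t, if_neg h2, if_neg hy]

/-- Values in a lexicographic product can be embedded in `ℚ`. -/
theorem exists_theta (L : Set (LowerSet ℚ)) (hL : L.Countable) :
    ∃ θ : LowerSet ℚ ×ₗ WithBot ℚ → ℚ, ∀ a b, (ofLex a).1 ∈ L → (ofLex b).1 ∈ L → a < b →
      θ a < θ b := by
  classical
  have hL' : Countable L := hL.to_subtype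
  have hWB : Countable (WithBot ℚ) := inferInstanceAs (Countable (Option ℚ))
  have hcount : Countable {a : LowerSet ℚ ×ₗ WithBot ℚ // (ofLex a).1 ∈ L} := by
    refine Function.Injective.countable (β := L × WithBot ℚ)
      (f := fun a => (⟨(ofLex a.1).1, a.2⟩, (ofLex a.1).2)) ?_
    rintro ⟨a, ha⟩ ⟨b, hb⟩ hab
    simp only [Prod.mk.injEq, Subtype.mk.injEq] at hab
    exact Subtype.ext (Prod.ext hab.1 hab.2)
  obtain ⟨e⟩ := Order.embedding_from_countable_to_dense
    {a : LowerSet ℚ ×ₗ WithBot ℚ // (ofLex a).1 ∈ L} ℚ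
  refine ⟨fun a => if h : (ofLex a).1 ∈ L then e ⟨a, h⟩ else 0, fun a b ha hb hab => ?_⟩
  show (if h : (ofLex a).1 ∈ L then e ⟨a, h⟩ else 0) <
    (if h : (ofLex b).1 ∈ L then e ⟨b, h⟩ else 0)
  rw [dif_pos ha, dif_pos hb, e.lt_iff_lt]
  exact hab

end PolQ
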