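import Pool.Agent.Hhelper75.PolQ.Mono
import Pool.Agent.Hhelper75.PolQ.Copies

/-!
# Operations agreeing on the product of supports act in the same way
-/

namespace PolQ

open Classical in
/-- The normal form operation given by lower sets `V x`. -/
noncomputable def nf {n : ℕ} (P : Fin (n + 1) → Finset ℚ) (f : Op ℚ n)
    (V : (Fin (n + 1) → ℚ) → LowerSet ℚ) (x : Fin (n + 1) → ℚ) : LowerSet ℚ ×ₗ WithBot ℚ :=
  if ∀ i, x i ∈ P i then toLex (LowerSet.Iic (f x), ⊥) else toLex (V x, (x 0 : WithBot ℚ))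

theorem nf_pos {n : ℕ} {P : Fin (n + 1) → Finset ℚ} {f : Op ℚ n}
    {V : (Fin (n + 1) → ℚ) → LowerSet ℚ} {x : Fin (n + 1) → ℚ} (h : ∀ i, x i ∈ P i) :
    nf P f V x = toLex (LowerSet.Iic (f x), ⊥) := if_pos h

theorem nf_neg {n : ℕ} {P : Fin (n + 1) → Finset ℚ} {f : Op ℚ n}
    {V : (Fin (n + 1) → ℚ) → LowerSet ℚ} {x : Fin (n + 1) → ℚ} (h : ¬ ∀ i, x i ∈ P i) :
    nf P f V x = toLex (V x, (x 0 : WithBot ℚ)) := if_neg h

/-- Conditions on the lower sets making the normal form strictly monotone. -/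
structure Valid {n : ℕ} (P : Fin (n + 1) → Finset ℚ) (f : Op ℚ n)
    (V : (Fin (n + 1) → ℚ) → LowerSet ℚ) : Prop where
  mono : ∀ x y, (∀ i, x i < y i) → V x ≤ V y
  lo : ∀ x y, (∀ i, x i ∈ P i) → (∀ i, x i < y i) → f x ∈ V y
  hi : ∀ x y, (∀ i, y i ∈ P i) → (∀ i, x i < y i) → f y ∉ V x

theorem toLex_lt_of_le {a b : LowerSet ℚ} {s t : WithBot ℚ} (h : a ≤ b) (h' : s < t) :
    toLex (a, s) < toLex (b, t) := by
  rw [Prod.Lex.lt_iff]
  rcases h.lt_or_eq with h | h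
  · exact Or.inl h
  · exact Or.inr ⟨h, h'⟩

theorem toLex_lt_of_lt {a b : LowerSet ℚ} {s t : WithBot ℚ} (h : a < b) :
    toLex (a, s) < toLex (b, t) := by
  rw [Prod.Lex.lt_iff]
  exact Or.inl h

theorem lt_Iic_of_not_mem {a : LowerSet ℚ} {v : ℚ} (h : v ∉ a) : a < LowerSet.Iic v := by
  rw [← not_le, LowerSet.Iic_le]
  exact h

theorem Iic_lt_Iic {u v : ℚ} (h : u < v) : LowerSet.Iic u < LowerSet.Iic v :=
  lt_Iic_of_not_mem fun h' => absurd h (not_lt.2 (LowerSet.mem_Iic_iff.1 h'))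

theorem Valid.nf_lt {n : ℕ} {P : Fin (n + 1) → Finset ℚ} {f : Op ℚ n}
    {V : (Fin (n + 1) → ℚ) → LowerSet ℚ} (hV : Valid P f V) (hf : IsPol f)
    {x y : Fin (n + 1) → ℚ} (h : ∀ i, x i < y i) : nf P f V x < nf P f V y := by
  by_cases hx : ∀ i, x i ∈ P i <;> by_cases hy : ∀ i, y i ∈ P i
  · rw [nf_pos hx, nf_pos hy]
    exact toLex_lt_of_lt (Iic_lt_Iic (hf x y h))
  · rw [nf_pos hx, nf_neg hy]
    refine toLex_lt_of_le ?_ (WithBot.bot_lt_coe _)
    rw [LowerSet.Iic_le]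
    exact hV.lo x y hx h
  · rw [nf_neg hx, nf_pos hy]
    exact toLex_lt_of_lt (lt_Iic_of_not_mem (hV.hi x y hy h))
  · rw [nf_neg hx, nf_neg hy]
    exact toLex_lt_of_le (hV.mono x y h) (WithBot.coe_lt_coe.2 (h 0))

/-- The lower set of level `J` of an operation. -/
def lev {n : ℕ} (P : Fin (n + 1) → Finset ℚ) (f : Op ℚ n) (J : Fin (n + 1) → ℕ) :
    LowerSet ℚ where
  carrier := {v | ∃ z : Fin (n + 1) → ℚ,
    (∀ i, cnt (P i) (z i) < J i ∨ (cnt (P i) (z i) = J i ∧ z i ∉ P i)) ∧ v ≤ f z}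
  lower' := by
    rintro a b hab ⟨z, hz, ha⟩
    exact ⟨z, hz, hab.trans ha⟩

theorem mem_lev {n : ℕ} {P : Fin (n + 1) → Finset ℚ} {f : Op ℚ n} {J : Fin (n + 1) → ℕ}
    {v : ℚ} : v ∈ lev P f J ↔ ∃ z : Fin (n + 1) → ℚ,
      (∀ i, cnt (P i) (z i) < J i ∨ (cnt (P i) (z i) = J i ∧ z i ∉ P i)) ∧ v ≤ f z := Iff.rfl

/-- The levels of a point. -/
def lv {n : ℕ} (P : Fin (n + 1) → Finset ℚ) (x : Fin (n + 1) → ℚ) : Fin (n + 1) → ℕ :=
  fun i => cnt (P i) (x i)

theorem lv_mono {n : ℕ} {P : Fin (n + 1) → Finset ℚ} {x y : Fin (n + 1) → ℚ}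
    (h : ∀ i, x i < y i) : lv P x ≤ lv P y := fun i => cnt_mono (P i) (h i).le

/-- Validity for families of lower sets indexed by levels. -/
structure LValid {n : ℕ} (P : Fin (n + 1) → Finset ℚ) (f : Op ℚ n)
    (W : (Fin (n + 1) → ℕ) → LowerSet ℚ) : Prop where
  mono : Monotone W
  lo : ∀ x y, (∀ i, x i ∈ P i) → (∀ i, x i < y i) → f x ∈ W (lv P y)
  hi : ∀ x y, (∀ i, y i ∈ P i) → (∀ i, x i < y i) → f y ∉ W (lv P x)

theorem lev_valid {n : ℕ} {P : Fin (n + 1) → Finset ℚ} {f : Op ℚ n} (hf : IsPol f) :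
    LValid P f (lev P f) where
  mono := by
    rintro J J' hJ v ⟨z, hz, hv⟩
    refine ⟨z, fun i => ?_, hv⟩
    rcases hz i with h | ⟨h, h'⟩
    · exact Or.inl (h.trans_le (hJ i))
    · rcases (hJ i).lt_or_eq with h2 | h2
      · exact Or.inl (h ▸ h2)
      · exact Or.inr ⟨h.trans h2, h'⟩
  lo x y hx h := ⟨x, fun i => Or.inl (cnt_lt (hx i) (h i)), le_rfl⟩
  hi x y hy h := by
    rintro ⟨z, hz, hv⟩
    refine absurd (hf z y fun i => ?_) (not_lt.2 hv)
    by_contra hcon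
    have h1 : cnt (P i) (x i) ≤ cnt (P i) (y i) := cnt_mono (P i) (h i).le
    have h2 : cnt (P i) (y i) ≤ cnt (P i) (z i) := cnt_mono (P i) (not_lt.1 hcon)
    rcases hz i with h3 | ⟨h3, h4⟩
    · have h3' : cnt (P i) (z i) < cnt (P i) (x i) := h3
      omega
    · have h3' : cnt (P i) (z i) = cnt (P i) (x i) := h3
      rcases (not_lt.1 hcon).lt_or_eq with h5 | h5
      · have := cnt_lt (hy i) h5
        omega
      · exact h4 (h5 ▸ hy i)

theorem LValid.sup {n : ℕ} {P : Fin (n + 1) → Finset ℚ} {f : Op ℚ n}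
    {W W' : (Fin (n + 1) → ℕ) → LowerSet ℚ} (h : LValid P f W) (h' : LValid P f W') :
    LValid P f fun J => W J ⊔ W' J where
  mono J J' hJ := sup_le_sup (h.mono hJ) (h'.mono hJ)
  lo x y hx hxy := LowerSet.mem_sup_iff.2 (Or.inl (h.lo x y hx hxy))
  hi x y hy hxy hcon := by
    rcases LowerSet.mem_sup_iff.1 hcon with h1 | h1
    · exact h.hi x y hy hxy h1
    · exact h'.hi x y hy hxy h1

theorem LValid.congr {n : ℕ} {P : Fin (n + 1) → Finset ℚ} {f f' : Op ℚ n}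
    {W : (Fin (n + 1) → ℕ) → LowerSet ℚ} (h : LValid P f W)
    (hff : ∀ x, (∀ i, x i ∈ P i) → f x = f' x) : LValid P f' W where
  mono := h.mono
  lo x y hx hxy := hff x hx ▸ h.lo x y hx hxy
  hi x y hy hxy := hff y hy ▸ h.hi x y hy hxy

/-- Interpolation between two families. -/
noncomputable def mix {n : ℕ} (W W' : (Fin (n + 1) → ℕ) → LowerSet ℚ) (k : ℕ)
    (J : Fin (n + 1) → ℕ) : LowerSet ℚ := if k ≤ ∑ i, J i then W' J else W J

theorem mix_valid {n : ℕ} {P : Fin (n + 1) → Finset ℚ} {f : Op ℚ n}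
    {W W' : (Fin (n + 1) → ℕ) → LowerSet ℚ} (h : LValid P f W) (h' : LValid P f W')
    (hle : ∀ J, W J ≤ W' J) (k : ℕ) : LValid P f (mix W W' k) where
  mono := by
    intro J J' hJ
    have hs : ∑ i, J i ≤ ∑ i, J' i := Finset.sum_le_sum fun i _ => hJ i
    unfold mix
    by_cases h1 : k ≤ ∑ i, J i
    · rw [if_pos h1, if_pos (h1.trans hs)]
      exact h'.mono hJ
    · rw [if_neg h1]
      by_cases h2 : k ≤ ∑ i, J' i
      · rw [if_pos h2]
        exact (h.mono hJ).trans (hle J')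
      · rw [if_neg h2]
        exact h.mono hJ
  lo x y hx hxy := by
    unfold mix
    split_ifs
    · exact h'.lo x y hx hxy
    · exact h.lo x y hx hxy
  hi x y hy hxy := by
    unfold mix
    split_ifs
    · exact h'.hi x y hy hxy
    · exact h.hi x y hy hxy

theorem LValid.valid {n : ℕ} {P : Fin (n + 1) → Finset ℚ} {f : Op ℚ n}
    {W : (Fin (n + 1) → ℕ) → LowerSet ℚ} (h : LValid P f W) :
    Valid P f fun x => W (lv P x) where
  mono x y hxy := h.mono (lv_mono hxy)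
  lo := h.lo
  hi := h.hi

open Classical in
/-- The operation interpolating between two consecutive mixtures. -/
noncomputable def bridge {n : ℕ} (P : Fin (n + 1) → Finset ℚ) (β : Fin (n + 1) → ℚ → ℚ)
    (W W' : (Fin (n + 1) → ℕ) → LowerSet ℚ) (k : ℕ) (x : Fin (n + 1) → ℚ) : LowerSet ℚ :=
  if ∀ i, ∃ y, β i y ≤ x i ∧ cnt (P i) y = cnt (P i) (x i) then mix W W' k (lv P x)
  else mix W W' (k + 1) (lv P x)

theorem bridge_valid {n : ℕ} {P : Fin (n + 1) → Finset ℚ} {f : Op ℚ n}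
    {W W' : (Fin (n + 1) → ℕ) → LowerSet ℚ} (h : LValid P f W) (h' : LValid P f W')
    (hle : ∀ J, W J ≤ W' J) (β : Fin (n + 1) → ℚ → ℚ) (k : ℕ) :
    Valid P f (bridge P β W W' k) where
  mono x y hxy := by
    have hlv := lv_mono (P := P) hxy
    have m1 := mix_valid h h' hle k
    have m2 := mix_valid h h' hle (k + 1)
    have hk : ∀ J, mix W W' (k + 1) J ≤ mix W W' k J := by
      intro J
      unfold mix
      by_cases h1 : k + 1 ≤ ∑ i, J i
      · rw [if_pos h1, if_pos (by omega)]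
      · rw [if_neg h1]
        split_ifs
        · exact hle J
        · exact le_rfl
    unfold bridge
    split_ifs with h1 h2 h2
    · exact m1.mono hlv
    · -- the level increases
      push Not at h2
      obtain ⟨i, hi⟩ := h2
      obtain ⟨u, hu, hu'⟩ := h1 i
      have hlt : cnt (P i) (x i) < cnt (P i) (y i) := by
        refine lt_of_le_of_ne (cnt_mono (P i) (hxy i).le) fun heq => ?_
        exact hi u (hu.trans (hxy i).le) (hu'.trans heq)
      have hsum : ∑ i, lv P x i < ∑ i, lv P y i :=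
        Finset.sum_lt_sum (fun j _ => hlv j) ⟨i, Finset.mem_univ i, hlt⟩
      unfold mix
      by_cases h3 : k ≤ ∑ i, lv P x i
      · rw [if_pos h3, if_pos (by omega)]
        exact h'.mono hlv
      · rw [if_neg h3]
        split_ifs
        · exact (h.mono hlv).trans (hle _)
        · exact h.mono hlv
    · exact (m2.mono hlv).trans (hk _)
    · exact m2.mono hlv
  lo x y hx hxy := by
    unfold bridge
    split_ifs
    · exact (mix_valid h h' hle k).lo x y hx hxy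
    · exact (mix_valid h h' hle (k + 1)).lo x y hx hxy
  hi x y hy hxy := by
    unfold bridge
    split_ifs
    · exact (mix_valid h h' hle k).hi x y hy hxy
    · exact (mix_valid h h' hle (k + 1)).hi x y hy hxy

/-- The lower set of values of `f` on the points of the copy `α` below `x`. -/
def dn {n : ℕ} (f : Op ℚ n) (α : Fin (n + 1) → ℚ → ℚ) (x : Fin (n + 1) → ℚ) : LowerSet ℚ where
  carrier := {v | ∃ z : Fin (n + 1) → ℚ, (∀ i, α i (z i) < x i) ∧ v ≤ f z}
  lower' := by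
    rintro a b hab ⟨z, hz, ha⟩
    exact ⟨z, hz, hab.trans ha⟩

open Classical in
/-- The extension of `f` from the copy `α` to everything. -/
noncomputable def ext {n : ℕ} (f : Op ℚ n) (α : Fin (n + 1) → ℚ → ℚ)
    (x : Fin (n + 1) → ℚ) : LowerSet ℚ ×ₗ WithBot ℚ :=
  if h : ∃ z : Fin (n + 1) → ℚ, ∀ i, α i (z i) = x i then
    toLex (LowerSet.Iic (f (Classical.choose h)), ⊥)
  else toLex (dn f α x, (x 0 : WithBot ℚ))

theorem ext_apply {n : ℕ} {f : Op ℚ n} {α : Fin (n + 1) → ℚ → ℚ}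
    (hα : ∀ i, StrictMono (α i)) (z : Fin (n + 1) → ℚ) {x : Fin (n + 1) → ℚ}
    (hx : ∀ i, α i (z i) = x i) : ext f α x = toLex (LowerSet.Iic (f z), ⊥) := by
  have h : ∃ z : Fin (n + 1) → ℚ, ∀ i, α i (z i) = x i := ⟨z, hx⟩
  have e : Classical.choose h = z := by
    funext i
    exact (hα i).injective ((Classical.choose_spec h i).trans (hx i).symm)
  unfold ext
  rw [dif_pos h, e]

theorem ext_neg {n : ℕ} {f : Op ℚ n} {α : Fin (n + 1) → ℚ → ℚ} {x : Fin (n + 1) → ℚ}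
    (h : ¬ ∃ z : Fin (n + 1) → ℚ, ∀ i, α i (z i) = x i) :
    ext f α x = toLex (dn f α x, (x 0 : WithBot ℚ)) := dif_neg h

theorem ext_lt {n : ℕ} {f : Op ℚ n} (hf : IsPol f) {α : Fin (n + 1) → ℚ → ℚ}
    (hα : ∀ i, StrictMono (α i)) {x y : Fin (n + 1) → ℚ} (h : ∀ i, x i < y i) :
    ext f α x < ext f α y := by
  by_cases hx : ∃ z : Fin (n + 1) → ℚ, ∀ i, α i (z i) = x i <;>
    by_cases hy : ∃ z : Fin (n + 1) → ℚ, ∀ i, α i (z i) = y i
  · obtain ⟨z, hz⟩ := hx
    obtain ⟨z', hz'⟩ := hy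
    rw [ext_apply hα z hz, ext_apply hα z' hz']
    refine toLex_lt_of_lt (Iic_lt_Iic (hf z z' fun i => ?_))
    rw [← (hα i).lt_iff_lt, hz, hz']
    exact h i
  · obtain ⟨z, hz⟩ := hx
    rw [ext_apply hα z hz, ext_neg hy]
    refine toLex_lt_of_le ?_ (WithBot.bot_lt_coe _)
    rw [LowerSet.Iic_le]
    exact ⟨z, fun i => (hz i).trans_lt (h i), le_rfl⟩
  · obtain ⟨z', hz'⟩ := hy
    rw [ext_neg hx, ext_apply hα z' hz']
    refine toLex_lt_of_lt (lt_Iic_of_not_mem ?_)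
    rintro ⟨z, hz, hv⟩
    refine absurd (hf z z' fun i => ?_) (not_lt.2 hv)
    rw [← (hα i).lt_iff_lt, hz']
    exact (hz i).trans (h i)
  · rw [ext_neg hx, ext_neg hy]
    refine toLex_lt_of_le ?_ (WithBot.coe_lt_coe.2 (h 0))
    rintro v ⟨z, hz, hv⟩
    exact ⟨z, fun i => (hz i).trans (h i), hv⟩

theorem isPol_theta {n : ℕ} {L : Set (LowerSet ℚ)} {θ : LowerSet ℚ ×ₗ WithBot ℚ → ℚ}
    (hθ : ∀ a b, (ofLex a).1 ∈ L → (ofLex b).1 ∈ L → a < b → θ a < θ b)
    {G : (Fin (n + 1) → ℚ) → LowerSet ℚ ×ₗ WithBot ℚ}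
    (hG : ∀ x y, (∀ i, x i < y i) → G x < G y) (hL : ∀ x, (ofLex (G x)).1 ∈ L) :
    IsPol fun x => θ (G x) := fun x y h => hθ _ _ (hL x) (hL y) (hG x y h)

theorem nf_mem {n : ℕ} {L : Set (LowerSet ℚ)} (h1 : ∀ v, LowerSet.Iic v ∈ L)
    {P : Fin (n + 1) → Finset ℚ} {f : Op ℚ n} {V : (Fin (n + 1) → ℚ) → LowerSet ℚ}
    (hV : ∀ x, V x ∈ L) (x : Fin (n + 1) → ℚ) : (ofLex (nf P f V x)).1 ∈ L := by
  unfold nf
  split_ifs
  · exact h1 _
  · exact hV x

theorem ext_mem {n : ℕ} {L : Set (LowerSet ℚ)} (h1 : ∀ v, LowerSet.Iic v ∈ L)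
    {f : Op ℚ n} {α : Fin (n + 1) → ℚ → ℚ} (h2 : ∀ x, dn f α x ∈ L)
    (x : Fin (n + 1) → ℚ) : (ofLex (ext f α x)).1 ∈ L := by
  unfold ext
  split_ifs
  · exact h1 _
  · exact h2 x

namespace Act

variable {Ω : Type} {A : Act Ω}

theorem ev_copy [Countable Ω] (hinj : A.Inj1) (hcl : A.Closed1) {n : ℕ}
    {w : Fin (n + 1) → Ω} {P : Fin (n + 1) → Finset ℚ} (hP : ∀ i, A.Supp (w i) (P i))
    {f : Op ℚ n} (hf : IsPol f) {α : Fin (n + 1) → ℚ → ℚ} (hα : ∀ i, StrictMono (α i))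
    (hfix : ∀ i, ∀ p ∈ P i, α i p = p) :
    A.ev n (fun x => f fun i => α i (x i)) w = A.ev n f w := by
  rw [A.ev_right hf hα]
  congr 1
  funext i
  exact sm_fix hinj hcl (hα i) (hP i) (hfix i)

/-- The copies argument. -/
theorem ev_two [Countable Ω] (hinj : A.Inj1) (hcl : A.Closed1) {n : ℕ}
    {w : Fin (n + 1) → Ω} {P : Fin (n + 1) → Finset ℚ} (hP : ∀ i, A.Supp (w i) (P i))
    {α β : Fin (n + 1) → ℚ → ℚ} (hc : ∀ i, Copies (P i) (α i) (β i))
    {f g h : Op ℚ n} (hf : IsPol f) (hg : IsPol g) (hh : IsPol h)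
    (h1 : ∀ x : Fin (n + 1) → ℚ, (f fun i => α i (x i)) = g fun i => α i (x i))
    (h2 : ∀ x : Fin (n + 1) → ℚ, (f fun i => β i (x i)) = h fun i => β i (x i)) :
    A.ev n g w = A.ev n h w := by
  rw [← ev_copy hinj hcl hP hg (fun i => (hc i).monoα) (fun i => (hc i).fixα),
    ← ev_copy hinj hcl hP hh (fun i => (hc i).monoβ) (fun i => (hc i).fixβ),
    ← funext h1, ← funext h2,
    ev_copy hinj hcl hP hf (fun i => (hc i).monoα) (fun i => (hc i).fixα),
    ev_copy hinj hcl hP hf (fun i => (hc i).monoβ) (fun i => (hc i).fixβ)]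

/-- First step: passing to the normal form. -/
theorem ev_start [Countable Ω] (hinj : A.Inj1) (hcl : A.Closed1) {n : ℕ}
    {w : Fin (n + 1) → Ω} {P : Fin (n + 1) → Finset ℚ} (hP : ∀ i, A.Supp (w i) (P i))
    {α β : Fin (n + 1) → ℚ → ℚ} (hc : ∀ i, Copies (P i) (α i) (β i))
    {L : Set (LowerSet ℚ)} {θ : LowerSet ℚ ×ₗ WithBot ℚ → ℚ}
    (hθ : ∀ a b, (ofLex a).1 ∈ L → (ofLex b).1 ∈ L → a < b → θ a < θ b)
    {f : Op ℚ n} (hf : IsPol f) (hL1 : ∀ v, LowerSet.Iic v ∈ L) (hL2 : ∀ x, dn f α x ∈ L)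
    (hL3 : ∀ J, lev P f J ∈ L) :
    A.sm (fun v => θ (toLex (LowerSet.Iic v, ⊥))) (A.ev n f w) =
      A.ev n (fun x => θ (nf P f (fun x => lev P f (lv P x)) x)) w := by
  have ha : StrictMono fun v => θ (toLex (LowerSet.Iic v, ⊥)) := fun u v huv =>
    hθ _ _ (hL1 u) (hL1 v) (toLex_lt_of_lt (Iic_lt_Iic huv))
  have hG : IsPol fun x => θ (ext f α x) := isPol_theta hθ
    (fun x y h => ext_lt hf (fun i => (hc i).monoα) h) (ext_mem hL1 hL2)
  have hN : IsPol fun x => θ (nf P f (fun x => lev P f (lv P x)) x) := isPol_theta hθ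
    (fun x y h => (lev_valid hf).valid.nf_lt hf h) (nf_mem hL1 fun x => hL3 _)
  have e1 : (fun x : Fin (n + 1) → ℚ => θ (ext f α fun i => α i (x i))) =
      fun x => (fun v => θ (toLex (LowerSet.Iic v, ⊥))) (f x) := by
    funext x
    rw [ext_apply (fun i => (hc i).monoα) x fun i => rfl]
  have e2 : (fun x : Fin (n + 1) → ℚ => θ (ext f α fun i => β i (x i))) =
      fun x => θ (nf P f (fun x => lev P f (lv P x)) fun i => β i (x i)) := by
    funext x
    congr 1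
    by_cases hx : ∀ i, x i ∈ P i
    · rw [nf_pos fun i => (hc i).memβ.2 (hx i), ext_apply (fun i => (hc i).monoα) x
        fun i => ((hc i).fixα _ (hx i)).trans ((hc i).fixβ _ (hx i)).symm]
      congr 3
      congr 1
      funext i
      exact ((hc i).fixβ _ (hx i)).symm
    · rw [nf_neg fun h => hx fun i => (hc i).memβ.1 (h i), ext_neg]
      · congr 2
        refine LowerSet.ext (Set.ext fun v => ?_)
        show (∃ z : Fin (n + 1) → ℚ, (∀ i, α i (z i) < β i (x i)) ∧ v ≤ f z) ↔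
          ∃ z : Fin (n + 1) → ℚ, (∀ i, cnt (P i) (z i) < cnt (P i) (β i (x i)) ∨
            (cnt (P i) (z i) = cnt (P i) (β i (x i)) ∧ z i ∉ P i)) ∧ v ≤ f z
        have e3 : ∀ z : Fin (n + 1) → ℚ, (∀ i, α i (z i) < β i (x i)) ↔
            ∀ i, cnt (P i) (z i) < cnt (P i) (β i (x i)) ∨
              (cnt (P i) (z i) = cnt (P i) (β i (x i)) ∧ z i ∉ P i) := fun z =>
          forall_congr' fun i => by
            rw [cnt_map (hc i).monoβ (hc i).fixβ, (hc i).lt_iff]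
        simp only [e3]
      · rintro ⟨z, hz⟩
        exact hx fun i => (hc i).eq (hz i)
  calc A.sm (fun v => θ (toLex (LowerSet.Iic v, ⊥))) (A.ev n f w)
      = A.ev n (fun x => (fun v => θ (toLex (LowerSet.Iic v, ⊥))) (f x)) w :=
        (A.ev_left ha hf w).symm
    _ = A.ev n (fun x => θ (ext f α x)) w := by
        rw [← e1]
        exact ev_copy hinj hcl hP hG (fun i => (hc i).monoα) (fun i => (hc i).fixα)
    _ = A.ev n (fun x => θ (ext f α fun i => β i (x i))) w :=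
        (ev_copy hinj hcl hP hG (fun i => (hc i).monoβ) (fun i => (hc i).fixβ)).symm
    _ = A.ev n (fun x => θ (nf P f (fun x => lev P f (lv P x)) x)) w := by
        rw [e2]
        exact ev_copy hinj hcl hP hN (fun i => (hc i).monoβ) (fun i => (hc i).fixβ)

/-- Second step: raising one level. -/
theorem ev_raise [Countable Ω] (hinj : A.Inj1) (hcl : A.Closed1) {n : ℕ}
    {w : Fin (n + 1) → Ω} {P : Fin (n + 1) → Finset ℚ} (hP : ∀ i, A.Supp (w i) (P i))
    {α β : Fin (n + 1) → ℚ → ℚ} (hc : ∀ i, Copies (P i) (α i) (β i))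
    {L : Set (LowerSet ℚ)} {θ : LowerSet ℚ ×ₗ WithBot ℚ → ℚ}
    (hθ : ∀ a b, (ofLex a).1 ∈ L → (ofLex b).1 ∈ L → a < b → θ a < θ b)
    {f : Op ℚ n} (hf : IsPol f) (hL1 : ∀ v, LowerSet.Iic v ∈ L)
    {W W' : (Fin (n + 1) → ℕ) → LowerSet ℚ} (h : LValid P f W) (h' : LValid P f W')
    (hle : ∀ J, W J ≤ W' J) (hL2 : ∀ J, W J ∈ L) (hL3 : ∀ J, W' J ∈ L) (k : ℕ) :
    A.ev n (fun x => θ (nf P f (fun x => mix W W' (k + 1) (lv P x)) x)) w =
      A.ev n (fun x => θ (nf P f (fun x => mix W W' k (lv P x)) x)) w := by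
  have hmem : ∀ k J, mix W W' k J ∈ L := by
    intro k J
    unfold mix
    split_ifs
    · exact hL3 J
    · exact hL2 J
  have hbmem : ∀ x, bridge P β W W' k x ∈ L := by
    intro x
    unfold bridge
    split_ifs
    · exact hmem _ _
    · exact hmem _ _
  have hlα : ∀ x : Fin (n + 1) → ℚ, (lv P fun i => α i (x i)) = lv P x := fun x => by
    funext i
    exact cnt_map (hc i).monoα (hc i).fixα _
  refine ev_two hinj hcl hP hc (f := fun x => θ (nf P f (bridge P β W W' k) x))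
    (isPol_theta hθ (fun x y hxy => (bridge_valid h h' hle β k).nf_lt hf hxy)
      (nf_mem hL1 hbmem))
    (isPol_theta hθ (fun x y hxy => (mix_valid h h' hle (k + 1)).valid.nf_lt hf hxy)
      (nf_mem hL1 fun x => hmem _ _))
    (isPol_theta hθ (fun x y hxy => (mix_valid h h' hle k).valid.nf_lt hf hxy)
      (nf_mem hL1 fun x => hmem _ _)) ?_ ?_
  · intro x
    show θ _ = θ _
    congr 1
    by_cases hx : ∀ i, x i ∈ P i
    · have hx' : ∀ i, α i (x i) ∈ P i := fun i => (hc i).memα.2 (hx i)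
      rw [nf_pos hx', nf_pos hx']
    · have hx' : ¬ ∀ i, α i (x i) ∈ P i := fun h => hx fun i => (hc i).memα.1 (h i)
      rw [nf_neg hx', nf_neg hx']
      congr 2
      unfold bridge
      rw [if_neg]
      intro hcon
      refine hx fun i => ?_
      obtain ⟨y, hy1, hy2⟩ := hcon i
      by_contra hxi
      rw [cnt_map (hc i).monoα (hc i).fixα] at hy2
      exact absurd (((hc i).lt_iff (x i) y).2 (Or.inr ⟨hy2.symm, hxi⟩)) (not_lt.2 hy1)
  · intro x
    show θ _ = θ _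
    congr 1
    by_cases hx : ∀ i, x i ∈ P i
    · have hx' : ∀ i, β i (x i) ∈ P i := fun i => (hc i).memβ.2 (hx i)
      rw [nf_pos hx', nf_pos hx']
    · have hx' : ¬ ∀ i, β i (x i) ∈ P i := fun h => hx fun i => (hc i).memβ.1 (h i)
      rw [nf_neg hx', nf_neg hx']
      congr 2
      unfold bridge
      rw [if_pos]
      intro i
      exact ⟨x i, le_rfl, (cnt_map (hc i).monoβ (hc i).fixβ _).symm⟩

theorem ev_chain [Countable Ω] (hinj : A.Inj1) (hcl : A.Closed1) {n : ℕ}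
    {w : Fin (n + 1) → Ω} {P : Fin (n + 1) → Finset ℚ} (hP : ∀ i, A.Supp (w i) (P i))
    {α β : Fin (n + 1) → ℚ → ℚ} (hc : ∀ i, Copies (P i) (α i) (β i))
    {L : Set (LowerSet ℚ)} {θ : LowerSet ℚ ×ₗ WithBot ℚ → ℚ}
    (hθ : ∀ a b, (ofLex a).1 ∈ L → (ofLex b).1 ∈ L → a < b → θ a < θ b)
    {f : Op ℚ n} (hf : IsPol f) (hL1 : ∀ v, LowerSet.Iic v ∈ L)
    {W W' : (Fin (n + 1) → ℕ) → LowerSet ℚ} (h : LValid P f W) (h' : LValid P f W')
    (hle : ∀ J, W J ≤ W' J) (hL2 : ∀ J, W J ∈ L) (hL3 : ∀ J, W' J ∈ L) :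
    A.ev n (fun x => θ (nf P f (fun x => W (lv P x)) x)) w =
      A.ev n (fun x => θ (nf P f (fun x => W' (lv P x)) x)) w := by
  have h0 : (fun x => W' (lv P x)) = fun x => mix W W' 0 (lv P x) := by
    funext x
    unfold mix
    rw [if_pos (Nat.zero_le _)]
  have hK : (fun x => W (lv P x)) =
      fun x => mix W W' (∑ i, (P i).card + 1) (lv P x) := by
    funext x
    unfold mix
    rw [if_neg]
    have : ∑ i, lv P x i ≤ ∑ i, (P i).card := Finset.sum_le_sum fun i _ => cnt_le (P i) (x i)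
    omega
  have key : ∀ k, A.ev n (fun x => θ (nf P f (fun x => mix W W' k (lv P x)) x)) w =
      A.ev n (fun x => θ (nf P f (fun x => mix W W' 0 (lv P x)) x)) w := by
    intro k
    induction k with
    | zero => rfl
    | succ k ih =>
      rw [← ih]
      exact ev_raise hinj hcl hP hc hθ hf hL1 h h' hle hL2 hL3 k
  rw [h0, hK]
  exact key _

/-- Operations agreeing on the product of the supports act in the same way. -/
theorem ev_congr [Countable Ω] (hinj : A.Inj1) (hcl : A.Closed1) {n : ℕ}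
    {w : Fin (n + 1) → Ω} {P : Fin (n + 1) → Finset ℚ} (hP : ∀ i, A.Supp (w i) (P i))
    {f f' : Op ℚ n} (hf : IsPol f) (hf' : IsPol f')
    (hff : ∀ x, (∀ i, x i ∈ P i) → f x = f' x) : A.ev n f w = A.ev n f' w := by
  choose α β hc using fun i => exists_copies (P i)
  let L : Set (LowerSet ℚ) := Set.range LowerSet.Iic ∪ (Set.range (dn f α) ∪
    (Set.range (dn f' α) ∪ (Set.range (lev P f) ∪ (Set.range (lev P f') ∪
      Set.range fun J => lev P f J ⊔ lev P f' J))))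
  have hL : L.Countable := by
    refine (Set.countable_range _).union ((Set.countable_range _).union
      ((Set.countable_range _).union ((Set.countable_range _).union
        ((Set.countable_range _).union (Set.countable_range _)))))
  obtain ⟨θ, hθ⟩ := exists_theta L hL
  have m1 : ∀ v, LowerSet.Iic v ∈ L := fun v => Or.inl ⟨v, rfl⟩
  have m2 : ∀ x, dn f α x ∈ L := fun x => Or.inr (Or.inl ⟨x, rfl⟩)
  have m3 : ∀ x, dn f' α x ∈ L := fun x => Or.inr (Or.inr (Or.inl ⟨x, rfl⟩))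
  have m4 : ∀ J, lev P f J ∈ L := fun x => Or.inr (Or.inr (Or.inr (Or.inl ⟨x, rfl⟩)))
  have m5 : ∀ J, lev P f' J ∈ L := fun x => Or.inr (Or.inr (Or.inr (Or.inr (Or.inl ⟨x, rfl⟩))))
  have m6 : ∀ J, lev P f J ⊔ lev P f' J ∈ L := fun x =>
    Or.inr (Or.inr (Or.inr (Or.inr (Or.inr ⟨x, rfl⟩))))
  have s1 := ev_start hinj hcl hP hc hθ hf m1 m2 m4
  have s2 := ev_start hinj hcl hP hc hθ hf' m1 m3 m5
  have v1 : LValid P f (lev P f) := lev_valid hf
  have v2 : LValid P f (lev P f') := (lev_valid hf').congr fun x hx => (hff x hx).symm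
  have v3 := v1.sup v2
  have c1 := ev_chain hinj hcl hP hc hθ hf m1 v1 v3 (fun J => le_sup_left) m4 m6
  have c2 := ev_chain hinj hcl hP hc hθ hf m1 v2 v3 (fun J => le_sup_right) m5 m6
  have e : (fun x => θ (nf P f' (fun x => lev P f' (lv P x)) x)) =
      fun x => θ (nf P f (fun x => lev P f' (lv P x)) x) := by
    funext x
    by_cases hx : ∀ i, x i ∈ P i
    · rw [nf_pos hx, nf_pos hx, hff x hx]
    · rw [nf_neg hx, nf_neg hx]
  rw [e] at s2
  have ha : StrictMono fun v => θ (toLex (LowerSet.Iic v, ⊥)) := fun u v huv =>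
    hθ _ _ (m1 u) (m1 v) (toLex_lt_of_lt (Iic_lt_Iic huv))
  refine sm_injective hinj hcl ha ?_
  rw [s1, s2, c1, c2]

end Act

end PolQ
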