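import Mathlib

/-!
# Function clones, the topology of pointwise convergence and automatic homeomorphicity
-/

namespace PolQ

/-- Operations of arity `n + 1` on `A` (all arities `≥ 1` are of this form). -/
abbrev Op (A : Type) (n : ℕ) : Type := (Fin (n + 1) → A) → A

/-- A function clone on `A`: for every arity `n + 1` a set of operations, containing the
projections and closed under composition. -/
structure FunClone (A : Type) where
  ops : ∀ n : ℕ, Set (Op A n)
  proj_mem : ∀ (n : ℕ) (i : Fin (n + 1)), (fun x => x i) ∈ ops n
  comp_mem : ∀ (k n : ℕ) (f : Op A k) (g : Fin (k + 1) → Op A n), f ∈ ops k →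
    (∀ i, g i ∈ ops n) → (fun x => f fun i => g i x) ∈ ops n

/-- The elements of arity `n + 1` of a clone. -/
abbrev FunClone.El {A : Type} (C : FunClone A) (n : ℕ) : Type := {f : Op A n // f ∈ C.ops n}

/-- The projections as elements of a clone. -/
def FunClone.proj {A : Type} (C : FunClone A) (n : ℕ) (i : Fin (n + 1)) : C.El n :=
  ⟨fun x => x i, C.proj_mem n i⟩

/-- Composition in a clone. -/
def FunClone.comp {A : Type} (C : FunClone A) {k n : ℕ} (f : C.El k)
    (g : Fin (k + 1) → C.El n) : C.El n :=
  ⟨fun x => f.1 fun i => (g i).1 x, C.comp_mem k n f.1 (fun i => (g i).1) f.2 fun i => (g i).2⟩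

/-- Pointwise convergence on operations, the set `A` being discrete. -/
def opTop (A : Type) (n : ℕ) : TopologicalSpace (Op A n) :=
  @Pi.topologicalSpace (Fin (n + 1) → A) (fun _ => A) fun _ => ⊥

/-- The induced topology on the part of arity `n + 1` of a clone. -/
instance elTop {A : Type} (C : FunClone A) (n : ℕ) : TopologicalSpace (C.El n) :=
  (opTop A n).induced Subtype.val

/-- A clone is closed if each of its parts is closed in the space of all operations of that
arity (equivalently, it is closed in the sum of these spaces). -/
def FunClone.Closed {A : Type} (C : FunClone A) : Prop := ∀ n, @IsClosed _ (opTop A n) (C.ops n)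

/-- Clone isomorphisms: bijections preserving arities, projections and composition. -/
structure CloneIso {A B : Type} (C : FunClone A) (D : FunClone B) where
  toEquiv : ∀ n : ℕ, C.El n ≃ D.El n
  map_proj : ∀ (n : ℕ) (i : Fin (n + 1)), toEquiv n (C.proj n i) = D.proj n i
  map_comp : ∀ (k n : ℕ) (f : C.El k) (g : Fin (k + 1) → C.El n),
    toEquiv n (C.comp f g) = D.comp (toEquiv k f) fun i => toEquiv n (g i)

/-- The map of the sum spaces (`Σ n`, elements of arity `n + 1`) given by a clone isomorphism. -/
def CloneIso.total {A B : Type} {C : FunClone A} {D : FunClone B} (ξ : CloneIso C D)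
    (x : Σ n, C.El n) : Σ n, D.El n := ⟨x.1, ξ.toEquiv x.1 x.2⟩

/-- A closed function clone `C` has automatic homeomorphicity if every clone isomorphism from `C`
onto a closed clone on a countably infinite set is a homeomorphism. -/
def AutomaticHomeomorphicity {A : Type} (C : FunClone A) : Prop :=
  C.Closed ∧ ∀ (Ω : Type) [Countable Ω] [Infinite Ω] (D : FunClone Ω), D.Closed →
    ∀ ξ : CloneIso C D, IsHomeomorph ξ.total

/-- `f` preserves the strict order: it is a polymorphism of `(ℚ; <)`. -/
def IsPol {n : ℕ} (f : Op ℚ n) : Prop := ∀ x y : Fin (n + 1) → ℚ, (∀ i, x i < y i) → f x < f y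

/-- The polymorphism clone of `(ℚ; <)`. -/
def polQ : FunClone ℚ where
  ops n := {f | IsPol f}
  proj_mem _ i := fun _ _ h => h i
  comp_mem _ _ _ _ hf hg := fun x y h => hf _ _ fun i => hg i x y h

end PolQ
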