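import Pool.Agent.Hhelper75.PolQ.Defs

/-!
# The topology of pointwise convergence, in elementary terms
-/

namespace PolQ

theorem isOpen_pi_discrete {X A : Type} [TopologicalSpace A] [DiscreteTopology A]
    {s : Set (X → A)} : IsOpen s ↔
      ∀ f ∈ s, ∃ I : Finset X, ∀ g : X → A, (∀ x ∈ I, g x = f x) → g ∈ s := by
  constructor
  · intro h f hf
    obtain ⟨I, u, hu, hsub⟩ := isOpen_pi_iff.1 h f hf
    refine ⟨I, fun g hg => hsub ?_⟩
    intro x hx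
    rw [hg x hx]
    exact (hu x hx).2
  · intro h
    refine isOpen_pi_iff.2 fun f hf => ?_
    obtain ⟨I, hI⟩ := h f hf
    refine ⟨I, fun x => {f x}, fun x _ => ⟨isOpen_discrete _, rfl⟩, fun g hg => ?_⟩
    exact hI g fun x hx => hg x hx

theorem isOpen_op {A : Type} {n : ℕ} {s : Set (Op A n)} : @IsOpen _ (opTop A n) s ↔
      ∀ f ∈ s, ∃ I : Finset (Fin (n + 1) → A), ∀ g : Op A n, (∀ x ∈ I, g x = f x) → g ∈ s := by
  let _ : TopologicalSpace A := ⊥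
  have : DiscreteTopology A := ⟨rfl⟩
  exact isOpen_pi_discrete (X := Fin (n + 1) → A) (A := A) (s := s)

theorem isClosed_op {A : Type} {n : ℕ} {s : Set (Op A n)} : @IsClosed _ (opTop A n) s ↔
      ∀ f : Op A n, (∀ I : Finset (Fin (n + 1) → A), ∃ g ∈ s, ∀ x ∈ I, g x = f x) → f ∈ s := by
  rw [← @isOpen_compl_iff _ _ (opTop A n), isOpen_op]
  constructor
  · intro h f hf
    by_contra hfs
    obtain ⟨I, hI⟩ := h f hfs
    obtain ⟨g, hg, hgI⟩ := hf I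
    exact hI g hgI hg
  · intro h f hf
    by_contra hcon
    push Not at hcon
    refine hf (h f fun I => ?_)
    obtain ⟨g, hg, hgs⟩ := hcon I
    exact ⟨g, not_not.1 hgs, hg⟩

theorem isOpen_el {A : Type} {C : FunClone A} {n : ℕ} {s : Set (C.El n)} : IsOpen s ↔
      ∀ f ∈ s, ∃ I : Finset (Fin (n + 1) → A), ∀ g : C.El n, (∀ x ∈ I, g.1 x = f.1 x) →
        g ∈ s := by
  constructor
  · intro h f hf
    obtain ⟨V, hV, rfl⟩ := @isOpen_induced_iff _ _ (opTop A n) _ _ |>.1 h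
    obtain ⟨I, hI⟩ := isOpen_op.1 hV f.1 hf
    exact ⟨I, fun g hg => hI g.1 hg⟩
  · intro h
    refine @isOpen_induced_iff _ _ (opTop A n) _ _ |>.2
      ⟨{g | ∃ f : C.El n, ∃ I : Finset (Fin (n + 1) → A), (∀ x ∈ I, g x = f.1 x) ∧
        ∀ g' : C.El n, (∀ x ∈ I, g'.1 x = f.1 x) → g' ∈ s}, ?_, ?_⟩
    · rw [isOpen_op]
      rintro g ⟨f, I, hgI, hI⟩
      exact ⟨I, fun g' hg' => ⟨f, I, fun x hx => (hg' x hx).trans (hgI x hx), hI⟩⟩
    · ext g
      constructor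
      · rintro ⟨f, I, hgI, hI⟩
        exact hI g hgI
      · intro hg
        obtain ⟨I, hI⟩ := h g hg
        exact ⟨g, I, fun _ _ => rfl, hI⟩

theorem isHomeomorph_total {A B : Type} {C : FunClone A} {D : FunClone B} (ξ : CloneIso C D)
    (h1 : ∀ (n : ℕ) (f : C.El n) (y : Fin (n + 1) → B), ∃ I : Finset (Fin (n + 1) → A),
      ∀ g : C.El n, (∀ x ∈ I, g.1 x = f.1 x) → (ξ.toEquiv n g).1 y = (ξ.toEquiv n f).1 y)
    (h2 : ∀ (n : ℕ) (f : C.El n) (x : Fin (n + 1) → A), ∃ I : Finset (Fin (n + 1) → B),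
      ∀ g : C.El n, (∀ y ∈ I, (ξ.toEquiv n g).1 y = (ξ.toEquiv n f).1 y) → g.1 x = f.1 x) :
    IsHomeomorph ξ.total := by
  classical
  refine ⟨?_, ?_, ?_⟩
  · refine continuous_sigma_map (f₁ := id) (f₂ := fun n => ξ.toEquiv n) |>.2 fun n => ?_
    refine ⟨fun V hV => ?_⟩
    rw [isOpen_el] at hV ⊢
    intro f hf
    obtain ⟨I, hI⟩ := hV _ hf
    choose J hJ using h1 n f
    refine ⟨I.biUnion J, fun g hg => hI _ fun y hy => ?_⟩
    exact hJ y g fun x hx => hg x (Finset.mem_biUnion.2 ⟨y, hy, hx⟩)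
  · refine isOpenMap_sigma_map (f₁ := id) (f₂ := fun n => ξ.toEquiv n) |>.2 fun n => ?_
    intro U hU
    rw [isOpen_el] at hU ⊢
    rintro _ ⟨f, hf, rfl⟩
    obtain ⟨I, hI⟩ := hU f hf
    choose J hJ using h2 n f
    refine ⟨I.biUnion J, fun ψ hψ => ?_⟩
    obtain ⟨g, rfl⟩ := (ξ.toEquiv n).surjective ψ
    refine ⟨g, hI g fun x hx => ?_, rfl⟩
    exact hJ x g fun y hy => hψ y (Finset.mem_biUnion.2 ⟨x, hx, hy⟩)
  · constructor
    · rintro ⟨n, f⟩ ⟨m, g⟩ h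
      have hnm : n = m := congrArg Sigma.fst h
      subst hnm
      have h' : ξ.toEquiv n f = ξ.toEquiv n g := by
        simpa [CloneIso.total] using h
      rw [(ξ.toEquiv n).injective h']
    · rintro ⟨n, ψ⟩
      exact ⟨⟨n, (ξ.toEquiv n).symm ψ⟩, by simp [CloneIso.total]⟩

end PolQ
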