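import Pool.Agent.Hhelper75.PolQ.Clone
import Pool.Agent.Hhelper75.PolQ.Topo

/-!
# Automatic homeomorphicity of the polymorphism clone of `(ℚ; <)`
-/

namespace PolQ

theorem polQ_closed : polQ.Closed := by
  intro n
  rw [isClosed_op]
  intro f hf x y hxy
  obtain ⟨g, hg, hgI⟩ := hf {x, y}
  rw [← hgI x (by simp), ← hgI y (by simp)]
  exact hg x y hxy

section

variable {Ω : Type} {D : FunClone Ω} (ξ : CloneIso polQ D)

open Classical in
/-- The action given by a clone isomorphism. -/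
noncomputable def CloneIso.act : Act Ω where
  ev n f w := if h : IsPol f then (ξ.toEquiv n ⟨f, h⟩).1 w else w 0
  ev_proj n i w := by
    rw [dif_pos (isPol_proj n i)]
    have h := ξ.map_proj n i
    have h2 : (ξ.toEquiv n (polQ.proj n i)).1 w = (D.proj n i).1 w := by rw [h]
    exact h2
  ev_comp k n f g w hf hg := by
    rw [dif_pos (isPol_comp hf hg), dif_pos hf]
    have h := ξ.map_comp k n ⟨f, hf⟩ fun i => ⟨g i, hg i⟩
    have h2 := congrFun (congrArg Subtype.val h) w
    refine Eq.trans h2 ?_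
    refine congrArg (ξ.toEquiv k ⟨f, hf⟩).1 (funext fun i => ?_)
    show (ξ.toEquiv n ⟨g i, hg i⟩).1 w = _
    rw [dif_pos (hg i)]

theorem CloneIso.act_ev {n : ℕ} {f : Op ℚ n} (h : IsPol f) (w : Fin (n + 1) → Ω) :
    ξ.act.ev n f w = (ξ.toEquiv n ⟨f, h⟩).1 w := dif_pos h

theorem CloneIso.act_inj : ξ.act.Inj1 := by
  intro α β hα hβ h
  have h1 : ξ.toEquiv 0 ⟨fun x => α (x 0), isPol_un 0 hα⟩ =
      ξ.toEquiv 0 ⟨fun x => β (x 0), isPol_un 0 hβ⟩ := by
    refine Subtype.ext (funext fun w => ?_)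
    have h2 := h (w 0)
    unfold Act.sm at h2
    rw [ξ.act_ev (isPol_un 0 hα), ξ.act_ev (isPol_un 0 hβ)] at h2
    have hw : (fun _ => w 0 : Fin 1 → Ω) = w := by
      funext i
      rw [Subsingleton.elim i 0]
    rw [hw] at h2
    exact h2
  have h3 := (ξ.toEquiv 0).injective h1
  funext q
  exact congrFun (congrArg Subtype.val h3) fun _ => q

theorem CloneIso.act_closed (hD : D.Closed) : ξ.act.Closed1 := by
  classical
  intro φ hφ
  have h1 : (fun w : Fin 1 → Ω => φ (w 0)) ∈ D.ops 0 := by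
    refine isClosed_op.1 (hD 0) _ fun I => ?_
    obtain ⟨α, hα, hα'⟩ := hφ (I.image fun w => w 0)
    refine ⟨(ξ.toEquiv 0 ⟨fun x => α (x 0), isPol_un 0 hα⟩).1, (ξ.toEquiv 0 _).2,
      fun w hw => ?_⟩
    have h2 := hα' (w 0) (Finset.mem_image_of_mem _ hw)
    unfold Act.sm at h2
    rw [ξ.act_ev (isPol_un 0 hα)] at h2
    have hw' : (fun _ => w 0 : Fin 1 → Ω) = w := by
      funext i
      rw [Subsingleton.elim i 0]
    rw [hw'] at h2
    exact h2
  obtain ⟨⟨f, hf⟩, hf'⟩ := (ξ.toEquiv 0).surjective ⟨_, h1⟩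
  have hfp : IsPol f := hf
  have hβ : StrictMono fun q : ℚ => f fun _ => q := fun a b hab => hfp _ _ fun _ => hab
  refine ⟨fun q => f fun _ => q, hβ, fun w => ?_⟩
  unfold Act.sm
  rw [ξ.act_ev (isPol_un 0 hβ)]
  have h2 : (⟨fun x => f fun _ => x 0, isPol_un 0 hβ⟩ : polQ.El 0) = ⟨f, hf⟩ := by
    refine Subtype.ext (funext fun x => ?_)
    show f (fun _ => x 0) = f x
    refine congrArg f (funext fun i => ?_)
    rw [Fin.eq_zero i]
  rw [h2, hf']

end

namespace Act

variable {Ω : Type} {A : Act Ω}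

/-- There is a point with least support containing `0`. -/
theorem exists_base_point [Countable Ω] (hinj : A.Inj1) : ∃ (w : Ω) (F : Finset ℚ),
    A.Supp w F ∧ (∀ F', A.Supp w F' → F ⊆ F') ∧ (0 : ℚ) ∈ F := by
  classical
  have h1 : ∃ (w : Ω) (F : Finset ℚ), A.Supp w F ∧ (∀ F', A.Supp w F' → F ⊆ F') ∧
      F.Nonempty := by
    by_contra hcon
    push Not at hcon
    have h2 := hinj (shift 1) (OrderIso.refl ℚ) (shift 1).strictMono
      (OrderIso.refl ℚ).strictMono (fun w => by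
        obtain ⟨F, hF, hF'⟩ := exists_least_supp (A := A) w
        have := hcon w F hF hF'
        rw [this] at hF
        exact hF.congr (by simp))
    have h3 := congrFun h2 0
    rw [shift_apply] at h3
    simp at h3
  obtain ⟨w, F, hF, hleast, p, hp⟩ := h1
  refine ⟨A.sm (shift (-p)) w, F.image (shift (-p)), hF.image _, fun F' hF' => ?_, ?_⟩
  · have h4 := hF'.image (shift (-p)).symm
    rw [A.sm_symm rfl] at h4
    have h5 := hleast _ h4
    intro q hq
    obtain ⟨r, hr, rfl⟩ := Finset.mem_image.1 hq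
    obtain ⟨s, hs, hs'⟩ := Finset.mem_image.1 (h5 hr)
    rw [← hs', OrderIso.apply_symm_apply]
    exact hs
  · exact Finset.mem_image.2 ⟨p, hp, by simp⟩

/-- Recovering the values of an operation from the action. -/
theorem apply_eq_of_ev_eq [Countable Ω] (hinj : A.Inj1) (hcl : A.Closed1) {w : Ω}
    {F : Finset ℚ} (hF : A.Supp w F) (hleast : ∀ F', A.Supp w F' → F ⊆ F') (h0 : (0 : ℚ) ∈ F)
    {n : ℕ} {f f' : Op ℚ n} (hf : IsPol f) (hf' : IsPol f') (x : Fin (n + 1) → ℚ)
    (h : (A.ev n f fun i => A.sm (shift (x i)) w) = A.ev n f' fun i => A.sm (shift (x i)) w) :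
    f x = f' x := by
  have key : ∀ {f : Op ℚ n}, IsPol f → A.sm (fun q => f fun i => shift (x i) q) w =
      A.ev n f fun i => A.sm (shift (x i)) w := by
    intro f hf
    exact A.ev_comp n 0 f (fun i y => shift (x i) (y 0)) (fun _ => w) hf
      fun i => isPol_un 0 (shift (x i)).strictMono
  have hm : ∀ {f : Op ℚ n}, IsPol f → StrictMono fun q => f fun i => shift (x i) q :=
    fun hf a b hab => hf _ _ fun i => (shift (x i)).strictMono hab
  obtain ⟨g, hg⟩ := exists_extend F (fun q => f fun i => shift (x i) q)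
    ((hm hf).strictMonoOn _)
  obtain ⟨g', hg'⟩ := exists_extend F (fun q => f' fun i => shift (x i) q)
    ((hm hf').strictMonoOn _)
  rw [← key hf, ← key hf', sm_eq_of_supp hinj hcl (hm hf) hF hg,
    sm_eq_of_supp hinj hcl (hm hf') hF hg'] at h
  have h1 : A.sm (g.trans g'.symm) w = w := by
    rw [sm_trans, h, A.sm_symm rfl]
  have h2 := fix_least hF hleast h1 0 h0
  rw [OrderIso.trans_apply, OrderIso.symm_apply_eq, hg 0 h0, hg' 0 h0] at h2
  simpa using h2

end Act

/-- `Pol(ℚ; <)` has automatic homeomorphicity. -/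
theorem polQ_automaticHomeomorphicity : AutomaticHomeomorphicity polQ := by
  classical
  refine ⟨polQ_closed, fun Ω _ _ D hD ξ => ?_⟩
  have hinj := ξ.act_inj
  have hcl := ξ.act_closed hD
  refine isHomeomorph_total ξ ?_ ?_
  · rintro n ⟨f, hf⟩ y
    choose P hP using fun i => Act.exists_supp (A := ξ.act) (y i)
    refine ⟨Fintype.piFinset P, ?_⟩
    rintro ⟨g, hg⟩ hgf
    rw [← ξ.act_ev hf, ← ξ.act_ev hg]
    exact Act.ev_congr hinj hcl hP hg hf fun x hx => hgf x (Fintype.mem_piFinset.2 hx)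
  · rintro n ⟨f, hf⟩ x
    obtain ⟨w, F, hF, hleast, h0⟩ := Act.exists_base_point hinj
    refine ⟨{fun i => ξ.act.sm (shift (x i)) w}, ?_⟩
    rintro ⟨g, hg⟩ hgf
    have := hgf _ (Finset.mem_singleton_self _)
    rw [← ξ.act_ev hf, ← ξ.act_ev hg] at this
    exact Act.apply_eq_of_ev_eq hinj hcl hF hleast h0 hg hf x this

end PolQ
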