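import Pool.Agent.Hhelper75.PolQ.Supp2

/-!
# The unary part: strictly monotone maps act like automorphisms on supports
-/

namespace PolQ

/-- An isomorphism of the lexicographic product acting on fibres. -/
theorem exists_fibre (e : ℚ → ℚ ≃o ℚ) :
    ∃ g : (ℚ ×ₗ ℚ) ≃o (ℚ ×ₗ ℚ), ∀ x y, g (toLex (x, y)) = toLex (x, e x y) := by
  refine ⟨StrictMono.orderIsoOfRightInverse (fun p => toLex ((ofLex p).1, e (ofLex p).1 (ofLex p).2))
    ?_ (fun p => toLex ((ofLex p).1, (e (ofLex p).1).symm (ofLex p).2)) ?_, ?_⟩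
  · intro a b hab
    rw [Prod.Lex.lt_iff] at hab ⊢
    rcases hab with h | ⟨h1, h2⟩
    · exact Or.inl h
    · refine Or.inr ⟨h1, ?_⟩
      show e (ofLex a).1 (ofLex a).2 < e (ofLex b).1 (ofLex b).2
      rw [h1]
      exact (e (ofLex b).1).strictMono h2
  · intro p
    show toLex ((ofLex p).1, e (ofLex p).1 ((e (ofLex p).1).symm (ofLex p).2)) = p
    rw [OrderIso.apply_symm_apply]
    rfl
  · intro x y
    rfl

/-- An isomorphism of the lexicographic product acting on the base. -/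
theorem exists_base (h : ℚ ≃o ℚ) :
    ∃ g : (ℚ ×ₗ ℚ) ≃o (ℚ ×ₗ ℚ), ∀ x y, g (toLex (x, y)) = toLex (h x, y) := by
  refine ⟨StrictMono.orderIsoOfRightInverse (fun p => toLex (h (ofLex p).1, (ofLex p).2))
    ?_ (fun p => toLex (h.symm (ofLex p).1, (ofLex p).2)) ?_, ?_⟩
  · intro a b hab
    rw [Prod.Lex.lt_iff] at hab ⊢
    rcases hab with h1 | ⟨h1, h2⟩
    · exact Or.inl (h.strictMono h1)
    · refine Or.inr ⟨?_, h2⟩
      show h (ofLex a).1 = h (ofLex b).1
      rw [h1]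
  · intro p
    show toLex (h (h.symm (ofLex p).1), (ofLex p).2) = p
    rw [OrderIso.apply_symm_apply]
    rfl
  · intro x y
    rfl

/-- The embedding `γ` of `ℚ` in `ℚ`: automorphisms extend along it and the images of subsets
are fixed point sets of automorphisms. -/
theorem exists_gamma : ∃ γ : ℚ → ℚ, StrictMono γ ∧
    (∀ h : ℚ ≃o ℚ, ∃ g : ℚ ≃o ℚ, ∀ q, g (γ q) = γ (h q)) ∧
    ∀ S : Set ℚ, ∃ g : ℚ ≃o ℚ, ∀ q, g q = q ↔ ∃ s ∈ S, γ s = q := by
  classical
  have : Countable (ℚ ×ₗ ℚ) := inferInstanceAs (Countable (ℚ × ℚ))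
  obtain ⟨κ⟩ := Order.iso_of_countable_dense (ℚ ×ₗ ℚ) ℚ
  refine ⟨fun q => κ (toLex (q, 0)), ?_, ?_, ?_⟩
  · intro a b hab
    refine κ.strictMono ?_
    rw [Prod.Lex.lt_iff]
    exact Or.inl hab
  · intro h
    obtain ⟨g, hg⟩ := exists_base h
    refine ⟨κ.symm.trans (g.trans κ), fun q => ?_⟩
    rw [OrderIso.trans_apply, OrderIso.trans_apply, κ.symm_apply_apply, hg]
  · intro S
    obtain ⟨g, hg⟩ := exists_fibre fun x => if x ∈ S then dil 0 else shift 1
    refine ⟨κ.symm.trans (g.trans κ), fun q => ?_⟩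
    obtain ⟨p, rfl⟩ := κ.surjective q
    obtain ⟨⟨x, y⟩, rfl⟩ := toLex.surjective p
    rw [OrderIso.trans_apply, OrderIso.trans_apply, κ.symm_apply_apply, hg,
      κ.apply_eq_iff_eq, toLex_inj, Prod.mk.injEq]
    constructor
    · rintro ⟨-, h⟩
      by_cases hx : x ∈ S
      · rw [if_pos hx, dil_apply] at h
        refine ⟨x, hx, ?_⟩
        have : y = 0 := by linarith
        rw [this]
      · rw [if_neg hx, shift_apply] at h
        linarith
    · rintro ⟨s, hs, he⟩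
      rw [κ.apply_eq_iff_eq, toLex_inj, Prod.mk.injEq] at he
      obtain ⟨rfl, rfl⟩ := he
      rw [if_pos hs, dil_apply]
      exact ⟨rfl, by ring⟩

theorem eq_self_of_comm {δ : ℚ → ℚ} (h : ∀ (g : ℚ ≃o ℚ) (q : ℚ), g (δ q) = δ (g q)) (q : ℚ) :
    δ q = q := by
  have h1 := h (dil q) q
  rw [dil_apply, dil_apply, sub_self, mul_zero, add_zero] at h1
  linarith

namespace Act

variable {Ω : Type} (A : Act Ω)

/-- The unary part of the action is closed. -/
def Closed1 : Prop := ∀ φ : Ω → Ω,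
  (∀ W : Finset Ω, ∃ α : ℚ → ℚ, StrictMono α ∧ ∀ w ∈ W, A.sm α w = φ w) →
    ∃ β : ℚ → ℚ, StrictMono β ∧ ∀ w, A.sm β w = φ w

/-- The unary part of the action is faithful. -/
def Inj1 : Prop := ∀ α β : ℚ → ℚ, StrictMono α → StrictMono β →
  (∀ w, A.sm α w = A.sm β w) → α = β

/-- `β` acts like the automorphisms close to `α`. -/
def E (α β : ℚ → ℚ) : Prop :=
  ∀ w F, A.Supp w F → ∀ g : ℚ ≃o ℚ, (∀ p ∈ F, g p = α p) → A.sm β w = A.sm g w

variable {A}

theorem exists_E [Countable Ω] (hcl : A.Closed1) {α : ℚ → ℚ} (hα : StrictMono α) :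
    ∃ β, StrictMono β ∧ A.E α β := by
  classical
  choose F hF using fun w => exists_supp (A := A) w
  choose g hg using fun w => exists_extend (F w) α (hα.strictMonoOn _)
  obtain ⟨β, hβ, hβ'⟩ := hcl (fun w => A.sm (g w) w) (by
    intro W
    obtain ⟨g', hg'⟩ := exists_extend (W.biUnion F) α (hα.strictMonoOn _)
    refine ⟨g', g'.strictMono, fun w hw => ?_⟩
    refine (hF w).congr fun p hp => ?_
    rw [hg w p hp, hg' p (Finset.mem_biUnion.2 ⟨w, hw, hp⟩)])
  refine ⟨β, hβ, fun w F' hF' g' hg' => ?_⟩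
  obtain ⟨g'', hg''⟩ := exists_extend (F w ∪ F') α (hα.strictMonoOn _)
  rw [hβ', hF'.congr (g := g') (g' := g'') fun p hp => ?_]
  · refine (hF w).congr fun p hp => ?_
    rw [hg w p hp, hg'' p (Finset.mem_union_left _ hp)]
  · rw [hg' p hp, hg'' p (Finset.mem_union_right _ hp)]

theorem E.unique [Countable Ω] (hinj : A.Inj1) {α β β' : ℚ → ℚ} (hα : StrictMono α)
    (hβ : StrictMono β) (hβ' : StrictMono β') (h : A.E α β) (h' : A.E α β') : β = β' := by
  refine hinj β β' hβ hβ' fun w => ?_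
  obtain ⟨F, hF⟩ := exists_supp (A := A) w
  obtain ⟨g, hg⟩ := exists_extend F α (hα.strictMonoOn _)
  rw [h w F hF g hg, h' w F hF g hg]

theorem E.mul {α β α' β' : ℚ → ℚ} (hα : StrictMono α) (hα' : StrictMono α')
    (hβ : StrictMono β) (hβ' : StrictMono β') (h : A.E α β) (h' : A.E α' β') :
    A.E (fun q => α (α' q)) fun q => β (β' q) := by
  intro w F hF g hg
  obtain ⟨g₁, hg₁⟩ := exists_extend F α' (hα'.strictMonoOn _)
  obtain ⟨g₂, hg₂⟩ := exists_extend (F.image g₁) α (hα.strictMonoOn _)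
  rw [A.sm_comp hβ hβ', h' w F hF g₁ hg₁, h _ _ (hF.image g₁) g₂ hg₂, ← sm_trans]
  refine hF.congr fun p hp => ?_
  rw [OrderIso.trans_apply, hg₂ _ (Finset.mem_image_of_mem g₁ hp), hg₁ p hp, hg p hp]

theorem E.iso (g : ℚ ≃o ℚ) : A.E g g := by
  intro w F hF g' hg'
  exact hF.congr fun p hp => (hg' p hp).symm

theorem E.intertwine [Countable Ω] (hinj : A.Inj1) {α β : ℚ → ℚ} (hα : StrictMono α)
    (hβ : StrictMono β) (h : A.E α β) {g k : ℚ ≃o ℚ} (H : ∀ q, g (α q) = α (k q)) :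
    ∀ q, g (β q) = β (k q) := by
  have h1 := (E.iso (A := A) g).mul g.strictMono hα g.strictMono hβ h
  have h2 := h.mul hα k.strictMono hβ k.strictMono (E.iso (A := A) k)
  have h3 : (fun q => g (α q)) = fun q => α (k q) := funext H
  rw [h3] at h1
  have := h1.unique hinj (hα.comp k.strictMono) (g.strictMono.comp hβ)
    (hβ.comp k.strictMono) h2
  exact fun q => congrFun this q

theorem E.self_of_lift [Countable Ω] (hinj : A.Inj1) {β β' : ℚ → ℚ} (hβ : StrictMono β)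
    (hβ' : StrictMono β') (h : A.E β β') (hr : ∀ q, β' q ∈ Set.range β)
    (hl : ∀ k : ℚ ≃o ℚ, ∃ g : ℚ ≃o ℚ, ∀ q, g (β q) = β (k q)) : β' = β := by
  choose δ hδ using hr
  have hδ' : ∀ q, δ q = q := by
    refine eq_self_of_comm fun k q => ?_
    obtain ⟨g, hg⟩ := hl k
    have := h.intertwine hinj hβ hβ' hg q
    rw [← hδ, ← hδ, hg] at this
    exact hβ.injective this
  funext q
  rw [← hδ, hδ']

theorem E.mem_range [Countable Ω] (hinj : A.Inj1) (hcl : A.Closed1) {α β : ℚ → ℚ}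
    (hα : StrictMono α) (hβ : StrictMono β) (h : A.E α β) (q : ℚ) : β q ∈ Set.range α := by
  obtain ⟨γ, hγ, hγ1, hγ2⟩ := exists_gamma
  -- `γ` is fixed
  obtain ⟨γ', hγ', hE⟩ := exists_E hcl hγ
  have e1 : γ' = γ := by
    refine hE.self_of_lift hinj hγ hγ' (fun q => ?_) hγ1
    obtain ⟨g, hg⟩ := hγ2 Set.univ
    have := hE.intertwine hinj hγ hγ' (g := g) (k := OrderIso.refl ℚ)
      (fun q => (hg (γ q)).2 ⟨q, trivial, rfl⟩) q
    obtain ⟨s, -, hs⟩ := (hg (γ' q)).1 this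
    exact ⟨s, hs⟩
  rw [e1] at hE
  have h1 := hE.mul hγ hα hγ hβ h
  obtain ⟨g, hg⟩ := hγ2 (Set.range α)
  have := h1.intertwine hinj (hγ.comp hα) (hγ.comp hβ) (g := g) (k := OrderIso.refl ℚ)
    (fun q => (hg (γ (α q))).2 ⟨α q, ⟨q, rfl⟩, rfl⟩) q
  obtain ⟨s, hs, hs'⟩ := (hg (γ (β q))).1 this
  rwa [hγ.injective hs'] at hs

theorem E.eq [Countable Ω] (hinj : A.Inj1) (hcl : A.Closed1) {α β : ℚ → ℚ}
    (hα : StrictMono α) (hβ : StrictMono β) (h : A.E α β) : β = α := by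
  have key : ∀ q x x' : ℚ, x < q → q < x' → ∃ y ∈ Set.Ioo x x', β q = α y := by
    intro q x x' h1 h2
    obtain ⟨e⟩ := (OC.ioo x x').exists_iso ⟨q, h1, h2⟩
    have hε : StrictMono fun t => (e.symm t : ℚ) := e.symm.strictMono
    obtain ⟨ε', hε', hE⟩ := exists_E hcl hε
    have e1 : ε' = fun t => (e.symm t : ℚ) := by
      refine hE.self_of_lift hinj hε hε' (fun q => hE.mem_range hinj hcl hε hε' q) fun k => ?_
      obtain ⟨g, -, hg⟩ := exists_lift Set.ordConnected_Ioo e k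
      refine ⟨g, fun q => ?_⟩
      show g (e.symm q : ℚ) = (e.symm (k q) : ℚ)
      rw [hg, e.apply_symm_apply]
    rw [e1] at hE
    have h3 := h.mul hα hε hβ hε hE
    obtain ⟨s, hs⟩ := h3.mem_range hinj hcl (hα.comp hε) (hβ.comp hε) (e ⟨q, h1, h2⟩)
    refine ⟨e.symm s, (e.symm s).2, ?_⟩
    have h4 : β (e.symm (e ⟨q, h1, h2⟩) : ℚ) = α (e.symm s : ℚ) := hs.symm
    rw [e.symm_apply_apply] at h4
    exact h4
  funext q
  obtain ⟨y, hy, hqy⟩ := key q (q - 1) (q + 1) (by linarith) (by linarith)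
  rcases lt_trichotomy y q with hlt | heq | hlt
  · obtain ⟨y', hy', hqy'⟩ := key q y (q + 1) hlt (by linarith)
    have : y = y' := hα.injective (by rw [← hqy, ← hqy'])
    rw [← this] at hy'
    exact absurd hy'.1 (lt_irrefl _)
  · rw [hqy, heq]
  · obtain ⟨y', hy', hqy'⟩ := key q (q - 1) y (by linarith) hlt
    have : y = y' := hα.injective (by rw [← hqy, ← hqy'])
    rw [← this] at hy'
    exact absurd hy'.2 (lt_irrefl _)

/-- Strictly monotone maps act like automorphisms. -/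
theorem sm_eq_of_supp [Countable Ω] (hinj : A.Inj1) (hcl : A.Closed1) {α : ℚ → ℚ}
    (hα : StrictMono α) {w : Ω} {F : Finset ℚ} (hF : A.Supp w F) {g : ℚ ≃o ℚ}
    (hg : ∀ p ∈ F, g p = α p) : A.sm α w = A.sm g w := by
  obtain ⟨β, hβ, hE⟩ := exists_E hcl hα
  have := hE.eq hinj hcl hα hβ
  rw [this] at hE
  exact hE w F hF g hg

theorem sm_fix [Countable Ω] (hinj : A.Inj1) (hcl : A.Closed1) {α : ℚ → ℚ}
    (hα : StrictMono α) {w : Ω} {F : Finset ℚ} (hF : A.Supp w F)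
    (hg : ∀ p ∈ F, α p = p) : A.sm α w = w := by
  rw [sm_eq_of_supp hinj hcl hα hF (g := OrderIso.refl ℚ) fun p hp => (hg p hp).symm]
  exact A.sm_id w

theorem sm_injective [Countable Ω] (hinj : A.Inj1) (hcl : A.Closed1) {α : ℚ → ℚ}
    (hα : StrictMono α) {w w' : Ω} (h : A.sm α w = A.sm α w') : w = w' := by
  obtain ⟨F, hF⟩ := exists_supp (A := A) w
  obtain ⟨F', hF'⟩ := exists_supp (A := A) w'
  obtain ⟨g, hg⟩ := exists_extend (F ∪ F') α (hα.strictMonoOn _)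
  rw [sm_eq_of_supp hinj hcl hα hF (g := g) fun p hp => hg p (Finset.mem_union_left _ hp),
    sm_eq_of_supp hinj hcl hα hF' (g := g) fun p hp => hg p (Finset.mem_union_right _ hp)] at h
  have := congrArg (A.sm g.symm) h
  rwa [A.sm_symm rfl, A.sm_symm rfl] at this

end Act

end PolQ
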