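import Pool.Agent.Hhelper75.PolQ.Act
import Pool.Agent.Hhelper75.PolQ.Auto

/-!
# Points of a countable action have finite supports
-/

namespace PolQ

namespace Act

variable {Ω : Type} (A : Act Ω)

/-- Among infinitely many strictly monotone maps with disjoint supports one fixes `w`. -/
theorem exists_fixed [Countable Ω] (w : Ω) (I : ℕ → Set ℚ) (σ : ℕ → ℚ → ℚ)
    (hdisj : ∀ m n, ∀ q, q ∈ I m → q ∈ I n → m = n) (hconv : ∀ n, (I n).OrdConnected)
    (hσ : ∀ n, StrictMono (σ n)) (hoff : ∀ n, ∀ q ∉ I n, σ n q = q)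
    (hin : ∀ n, ∀ q ∈ I n, σ n q ∈ I n) : ∃ n, A.sm (σ n) w = w := by
  classical
  let α : Set ℕ → ℚ → ℚ := fun B q =>
    if h : ∃ n, n ∈ B ∧ q ∈ I n then σ (Classical.choose h) q else q
  have h1 : ∀ B n q, n ∈ B → q ∈ I n → α B q = σ n q := by
    intro B n q hn hq
    have h : ∃ n, n ∈ B ∧ q ∈ I n := ⟨n, hn, hq⟩
    have h' := Classical.choose_spec h
    have e : Classical.choose h = n := hdisj _ _ q h'.2 hq
    show (if h : ∃ n, n ∈ B ∧ q ∈ I n then σ (Classical.choose h) q else q) = σ n q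
    rw [dif_pos h, e]
  have h2 : ∀ B q, (∀ n ∈ B, q ∉ I n) → α B q = q := by
    intro B q hq
    show (if h : ∃ n, n ∈ B ∧ q ∈ I n then σ (Classical.choose h) q else q) = q
    rw [dif_neg]
    rintro ⟨n, hn, hn'⟩
    exact hq n hn hn'
  have h3 : ∀ B n q, n ∉ B → q ∈ I n → α B q = q := by
    intro B n q hn hq
    refine h2 B q fun m hm hm' => ?_
    rw [hdisj _ _ q hm' hq] at hm
    exact hn hm
  have hα : ∀ B, StrictMono (α B) := by
    intro B a b hab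
    by_cases hb : ∃ n, n ∈ B ∧ b ∈ I n
    · obtain ⟨n, hn, hbn⟩ := hb
      rw [h1 B n b hn hbn]
      by_cases han : a ∈ I n
      · rw [h1 B n a hn han]
        exact hσ n hab
      · have hlt : a < σ n b := lt_of_conv' (hconv n) hbn han (hin n b hbn) hab
        by_cases ha : ∃ m, m ∈ B ∧ a ∈ I m
        · obtain ⟨m, hm, ham⟩ := ha
          rw [h1 B m a hm ham]
          refine lt_of_conv (hconv m) ham ?_ (hin m a ham) hlt
          intro hcon
          have := hdisj _ _ _ hcon (hin n b hbn)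
          subst this
          exact han ham
        · push Not at ha
          rw [h2 B a ha]
          exact hlt
    · push Not at hb
      rw [h2 B b hb]
      by_cases ha : ∃ m, m ∈ B ∧ a ∈ I m
      · obtain ⟨m, hm, ham⟩ := ha
        rw [h1 B m a hm ham]
        exact lt_of_conv (hconv m) ham (hb m hm) (hin m a ham) hab
      · push Not at ha
        rw [h2 B a ha]
        exact hab
  have hni : ¬ Function.Injective fun B => A.sm (α B) w := by
    intro hinj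
    have hc : Countable (Set ℕ) := hinj.countable
    obtain ⟨f, hf⟩ := exists_injective_nat (Set ℕ)
    exact Function.cantor_injective f hf
  unfold Function.Injective at hni
  push Not at hni
  obtain ⟨B, C, hBC, hne⟩ := hni
  have : ∃ n, (n ∈ B ∧ n ∉ C) ∨ (n ∈ C ∧ n ∉ B) := by
    by_contra hcon
    push Not at hcon
    exact hne (Set.ext fun n => ⟨(hcon n).1, (hcon n).2⟩)
  obtain ⟨n, ⟨hn, hn'⟩ | ⟨hn, hn'⟩⟩ := this
  · exact ⟨n, A.trunc (hα B) (hα C) (hσ n) (I n) (hoff n) (fun q hq => h1 B n q hn hq)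
      (fun q hq => h3 C n q hn' hq) w hBC⟩
  · exact ⟨n, A.trunc (hα C) (hα B) (hσ n) (I n) (hoff n) (fun q hq => h1 C n q hn hq)
      (fun q hq => h3 B n q hn' hq) w hBC.symm⟩

/-- All automorphisms supported on `I` fix `w`. -/
def Null (w : Ω) (I : Set ℚ) : Prop := ∀ g : ℚ ≃o ℚ, (∀ q ∉ I, g q = q) → A.sm g w = w

variable {A}

theorem Null.mono {w : Ω} {I J : Set ℚ} (h : A.Null w I) (hJ : J ⊆ I) : A.Null w J :=
  fun g hg => h g fun q hq => hg q fun hq' => hq (hJ hq')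

theorem sm_trans {g h : ℚ ≃o ℚ} {w : Ω} : A.sm (g.trans h) w = A.sm h (A.sm g w) :=
  A.sm_comp h.strictMono g.strictMono w

theorem supp_mem {I : Set ℚ} {g : ℚ ≃o ℚ} (hg : ∀ q ∉ I, g q = q) {q : ℚ} (hq : q ∈ I) :
    g q ∈ I := by
  by_contra h
  have := hg _ h
  rw [g.apply_eq_iff_eq] at this
  rw [this] at h
  exact h hq

theorem supp_mem_iff {I : Set ℚ} {g : ℚ ≃o ℚ} (hg : ∀ q ∉ I, g q = q) (q : ℚ) :
    g q ∈ I ↔ q ∈ I := by
  refine ⟨fun h => ?_, supp_mem hg⟩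
  by_contra hq
  rw [hg q hq] at h
  exact hq h

theorem supp_symm {I : Set ℚ} {g : ℚ ≃o ℚ} (hg : ∀ q ∉ I, g q = q) :
    ∀ q ∉ I, g.symm q = q := fun q hq => by
  rw [g.symm_apply_eq, hg q hq]

theorem Null.half_lo {w : Ω} {I J : Set ℚ} (hI : I.OrdConnected) (hJ : J.OrdConnected)
    (h : A.Null w I) (h' : A.Null w J) {t : ℚ} (ht : t ∈ I) (ht' : t ∈ J) :
    A.Null w ((I ∪ J) ∩ Set.Iio t) := by
  by_cases hsub : ∃ a ∈ I ∩ Set.Iio t, a ∉ J
  · obtain ⟨a, ⟨haI, hat⟩, haJ⟩ := hsub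
    refine h.mono ?_
    rintro x ⟨hx | hx, hxt⟩
    · exact hx
    · refine hI.out haI ht ⟨?_, (show x < t from hxt).le⟩
      by_contra hxa
      exact haJ (hJ.out hx ht' ⟨(not_le.1 hxa).le, (show a < t from hat).le⟩)
  · push Not at hsub
    refine h'.mono ?_
    rintro x ⟨hx | hx, hxt⟩
    · exact hsub x ⟨hx, hxt⟩
    · exact hx

theorem Null.half_hi {w : Ω} {I J : Set ℚ} (hI : I.OrdConnected) (hJ : J.OrdConnected)
    (h : A.Null w I) (h' : A.Null w J) {t : ℚ} (ht : t ∈ I) (ht' : t ∈ J) :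
    A.Null w ((I ∪ J) ∩ Set.Ioi t) := by
  by_cases hsub : ∃ a ∈ I ∩ Set.Ioi t, a ∉ J
  · obtain ⟨a, ⟨haI, hat⟩, haJ⟩ := hsub
    refine h.mono ?_
    rintro x ⟨hx | hx, hxt⟩
    · exact hx
    · refine hI.out ht haI ⟨(show t < x from hxt).le, ?_⟩
      by_contra hxa
      exact haJ (hJ.out ht' hx ⟨(show t < a from hat).le, (not_le.1 hxa).le⟩)
  · push Not at hsub
    refine h'.mono ?_
    rintro x ⟨hx | hx, hxt⟩
    · exact hsub x ⟨hx, hxt⟩
    · exact hx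

theorem Null.union {w : Ω} {I J : Set ℚ} (hI : OC I) (hJ : OC J)
    (h : A.Null w I) (h' : A.Null w J) {t : ℚ} (ht : t ∈ I) (ht' : t ∈ J) :
    A.Null w (I ∪ J) := by
  intro g hg
  have hgt : g t ∈ I ∪ J := supp_mem hg (Or.inl ht)
  obtain ⟨k, hk1, hk2, hk3⟩ : ∃ k : ℚ ≃o ℚ, (∀ q ∉ I ∪ J, k q = q) ∧ k t = g t ∧
      A.sm k w = w := by
    rcases hgt with hgt | hgt
    · obtain ⟨k, hk1, hk2⟩ := exists_move hI ht hgt
      exact ⟨k, fun q hq => hk1 q fun h => hq (Or.inl h), hk2, h k hk1⟩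
    · obtain ⟨k, hk1, hk2⟩ := exists_move hJ ht' hgt
      exact ⟨k, fun q hq => hk1 q fun h => hq (Or.inr h), hk2, h' k hk1⟩
  have hg't : (g.trans k.symm) t = t := by
    rw [OrderIso.trans_apply, ← hk2, k.symm_apply_apply]
  have hg' : ∀ q ∉ I ∪ J, (g.trans k.symm) q = q := fun q hq => by
    rw [OrderIso.trans_apply, hg q hq, supp_symm hk1 q hq]
  have hfix : A.sm (g.trans k.symm) w = w := by
    obtain ⟨g₁, g₂, e1, e2, e3, e4, e5⟩ := exists_split (g.trans k.symm) (C := Set.Iio t)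
      Set.ordConnected_Iio (fun q => by
        simp only [Set.mem_Iio]
        conv_lhs => rw [← hg't]
        exact (g.trans k.symm).lt_iff_lt)
    rw [A.sm_congr e5, A.sm_comp g₂.strictMono g₁.strictMono]
    have s1 : A.sm g₁ w = w := by
      refine (h.half_lo hI.conv hJ.conv h' ht ht') g₁ fun q hq => ?_
      by_cases hqt : q ∈ Set.Iio t
      · rw [e1 q hqt]
        exact hg' q fun hq' => hq ⟨hq', hqt⟩
      · exact e2 q hqt
    have s2 : A.sm g₂ w = w := by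
      refine (h.half_hi hI.conv hJ.conv h' ht ht') g₂ fun q hq => ?_
      by_cases hqt : q ∈ Set.Iio t
      · exact e3 q hqt
      · rw [e4 q hqt]
        rcases (not_lt.1 (show ¬ q < t from hqt)).eq_or_lt with heq | hlt
        · rw [← heq]
          exact hg't
        · exact hg' q fun hq' => hq ⟨hq', hlt⟩
    rw [s1, s2]
  have : A.sm k (A.sm (g.trans k.symm) w) = A.sm g w := by
    rw [sm_trans, A.sm_symm' (g := k)]
  rw [← this, hfix, hk3]

theorem exists_null_ioo [Countable Ω] (w : Ω) {T : Set ℚ} (hne : T.Nonempty) :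
    ∃ c₀ ∈ T, ∀ c d, c₀ < c → c < d → d ∈ T → A.Null w (Set.Ioo c d) := by
  by_contra hcon
  push Not at hcon
  have h : ∀ x : T, ∃ p : ℚ × T × (ℚ ≃o ℚ), (x : ℚ) < p.1 ∧ p.1 < p.2.1 ∧
      (∀ q ∉ Set.Ioo p.1 (p.2.1 : ℚ), p.2.2 q = q) ∧ A.sm p.2.2 w ≠ w := by
    intro x
    obtain ⟨c, d, h1, h2, h3, h4⟩ := hcon x x.2
    unfold Null at h4
    push Not at h4
    obtain ⟨g, hg, hg'⟩ := h4
    exact ⟨(c, ⟨d, h3⟩, g), h1, h2, hg, hg'⟩
  choose p hp1 hp2 hp3 hp4 using h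
  obtain ⟨t₀, ht₀⟩ := hne
  let s : ℕ → T := fun n => Nat.rec ⟨t₀, ht₀⟩ (fun _ x => (p x).2.1) n
  have hs : ∀ n, s (n + 1) = (p (s n)).2.1 := fun n => rfl
  have hsm : StrictMono fun n : ℕ => (s n).1 := by
    refine strictMono_nat_of_lt_succ fun n => ?_
    rw [hs]
    exact (hp1 (s n)).trans (hp2 (s n))
  have key : ∀ m n, m < n → ∀ q, q ∈ Set.Ioo (p (s m)).1 ((p (s m)).2.1 : ℚ) →
      q ∈ Set.Ioo (p (s n)).1 ((p (s n)).2.1 : ℚ) → False := by
    intro m n hmn q h1 h2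
    have h3 : ((p (s m)).2.1 : ℚ) ≤ (s n).1 := by
      rw [← hs]
      exact hsm.monotone (show m + 1 ≤ n from hmn)
    have h4 := hp1 (s n)
    have h5 := h1.2
    have h6 := h2.1
    linarith
  obtain ⟨n, hn⟩ := A.exists_fixed w (fun n => Set.Ioo (p (s n)).1 ((p (s n)).2.1 : ℚ))
    (fun n => (p (s n)).2.2) (by
      intro m n q h1 h2
      rcases lt_trichotomy m n with h | h | h
      · exact (key m n h q h1 h2).elim
      · exact h
      · exact (key n m h q h2 h1).elim)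
    (fun n => Set.ordConnected_Ioo) (fun n => (p (s n)).2.2.strictMono)
    (fun n => hp3 (s n)) (fun n q hq => supp_mem (hp3 (s n)) hq)
  exact hp4 (s n) hn

/-- Towards the upper end of a lower set without maximum, everything fixes `w`. -/
theorem exists_null_lo [Countable Ω] (w : Ω) {T : Set ℚ} (hT : IsLowerSet T) (hne : T.Nonempty)
    (hmax : ∀ x ∈ T, ∃ y ∈ T, x < y) : ∃ c ∈ T, A.Null w (T ∩ Set.Ioi c) := by
  obtain ⟨c₀, hc₀, hnull⟩ := exists_null_ioo (A := A) w hne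
  obtain ⟨c, hc, hcc⟩ := hmax c₀ hc₀
  obtain ⟨c₂, hc₂, hcc₂⟩ := hmax c hc
  refine ⟨c, hc, ?_⟩
  have hJ : OC (T ∩ Set.Ioi c) := by
    refine ⟨hT.ordConnected.inter Set.ordConnected_Ioi, ?_, ?_⟩
    · rintro x ⟨hx, hxc⟩
      obtain ⟨y, h1, h2⟩ := exists_between (show c < x from hxc)
      exact ⟨y, ⟨hT h2.le hx, h1⟩, h2⟩
    · rintro x ⟨hx, hxc⟩
      obtain ⟨y, h1, h2⟩ := hmax x hx
      exact ⟨y, ⟨h1, (show c < x from hxc).trans h2⟩, h2⟩
  obtain ⟨e⟩ := hJ.exists_iso ⟨c₂, hc₂, hcc₂⟩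
  let S := {g : ℚ ≃o ℚ // ∀ q ∉ T ∩ Set.Ioi c, g q = q}
  -- comparison
  have hM : ∀ g g' : S, (∃ N ∈ T, ∀ q ∈ T, N ≤ q → g.1 q ≤ g'.1 q) →
      A.le (A.sm g.1 w) (A.sm g'.1 w) := by
    rintro ⟨g, hg⟩ ⟨g', hg'⟩ ⟨N, hN, hNle⟩
    obtain ⟨h, hh⟩ := exists_sup g g'
    have hNT : max N c₂ ∈ T := by
      rcases max_choice N c₂ with h | h <;> rw [h] <;> assumption
    have hk : A.sm (h.trans g'.symm) w = w := by
      refine hnull c (max N c₂) hcc (hcc₂.trans_le (le_max_right _ _)) hNT _ fun q hq => ?_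
      rw [OrderIso.trans_apply, OrderIso.symm_apply_eq, hh]
      by_cases hqJ : q ∈ T ∩ Set.Ioi c
      · have hNq : N ≤ q := by
          by_contra hlt
          exact hq ⟨hqJ.2, (not_le.1 hlt).trans_le (le_max_left _ _)⟩
        exact max_eq_right (hNle q hqJ.1 hNq)
      · rw [hg q hqJ, hg' q hqJ, max_self]
    have h2 : A.sm h w = A.sm g' w := by
      have : A.sm g' (A.sm (h.trans g'.symm) w) = A.sm h w := by
        rw [sm_trans, A.sm_symm' (g := g')]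
      rw [← this, hk]
    show A.le (A.sm g w) (A.sm g' w)
    rw [← h2]
    refine A.le_of_sm g.strictMono h.strictMono (fun q => ?_) w
    rw [hh]
    exact le_max_left _ _
  -- directedness
  have hD : ∀ f : ℕ → S, ∃ γ : S, ∀ k, ∃ N ∈ T, ∀ q ∈ T, N ≤ q → (f k).1 q ≤ γ.1 q := by
    intro f
    let v : ℕ → ℕ → ℚ := fun k n =>
      e ⟨(f k).1 (e.symm ((n : ℚ) + 1)), supp_mem (f k).2 (e.symm ((n : ℚ) + 1)).2⟩
    obtain ⟨γ₀, hγ₀⟩ := exists_pl fun n => ∑ k ∈ Finset.range (n + 1), |v k n|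
    obtain ⟨γ, hγ1, hγ2⟩ := exists_lift hJ.conv e γ₀
    refine ⟨⟨γ, hγ1⟩, fun k => ⟨e.symm (k : ℚ), (e.symm (k : ℚ)).2.1, fun q hqT hq => ?_⟩⟩
    have hqc : c < q := lt_of_lt_of_le (e.symm (k : ℚ)).2.2 hq
    let x : (T ∩ Set.Ioi c : Set ℚ) := ⟨q, hqT, hqc⟩
    have hkx : (k : ℚ) ≤ e x := by
      rw [← e.apply_symm_apply (k : ℚ)]
      exact e.monotone hq
    have h0x : 0 ≤ e x := le_trans (Nat.cast_nonneg k) hkx
    have hkn : k ≤ ⌊e x⌋₊ := Nat.le_floor hkx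
    have h1 : x ≤ e.symm ((⌊e x⌋₊ : ℚ) + 1) := by
      rw [← e.le_iff_le, e.apply_symm_apply]
      exact (Nat.lt_floor_add_one _).le
    have h2 : (f k).1 q ≤ (f k).1 (e.symm ((⌊e x⌋₊ : ℚ) + 1)) := (f k).1.monotone h1
    have h3 : v k ⌊e x⌋₊ ≤ γ₀ (e x) := by
      calc v k ⌊e x⌋₊ ≤ |v k ⌊e x⌋₊| := le_abs_self _
        _ ≤ ∑ k ∈ Finset.range (⌊e x⌋₊ + 1), |v k ⌊e x⌋₊| :=
          Finset.single_le_sum (f := fun k => |v k ⌊e x⌋₊|) (fun _ _ => abs_nonneg _)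
            (Finset.mem_range.2 (by omega))
        _ ≤ γ₀ (⌊e x⌋₊ : ℚ) := hγ₀ _
        _ ≤ γ₀ (e x) := γ₀.monotone (Nat.floor_le h0x)
    have h4 : (f k).1 (e.symm ((⌊e x⌋₊ : ℚ) + 1)) ≤ γ q := by
      have h5 := hγ2 x
      have h6 : (⟨(f k).1 (e.symm ((⌊e x⌋₊ : ℚ) + 1)),
          supp_mem (f k).2 (e.symm ((⌊e x⌋₊ : ℚ) + 1)).2⟩ : (T ∩ Set.Ioi c : Set ℚ)) ≤
          e.symm (γ₀ (e x)) := by
        rw [← e.le_iff_le, e.apply_symm_apply]
        exact h3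
      rw [show γ q = γ x from rfl, h5]
      exact h6
    exact h2.trans h4
  -- the maximal value
  have hcount : (Set.range fun g : S => A.sm g.1 w).Countable := Set.to_countable _
  obtain ⟨u, hu⟩ := hcount.exists_eq_range ⟨_, ⟨⟨OrderIso.refl ℚ, fun q _ => rfl⟩, rfl⟩⟩
  have hu' : ∀ k, ∃ g : S, A.sm g.1 w = u k := by
    intro k
    have : u k ∈ Set.range fun g : S => A.sm g.1 w := by
      rw [hu]
      exact ⟨k, rfl⟩
    exact this
  choose f hf using hu'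
  obtain ⟨γ, hγ⟩ := hD f
  have hmaxv : ∀ g : S, A.le (A.sm g.1 w) (A.sm γ.1 w) := by
    intro g
    have : A.sm g.1 w ∈ Set.range u := by
      rw [← hu]
      exact ⟨g, rfl⟩
    obtain ⟨k, hk⟩ := this
    rw [← hk, ← hf k]
    exact hM (f k) γ (hγ k)
  have hγw : A.sm γ.1 w = w := by
    have a1 := hmaxv ⟨OrderIso.refl ℚ, fun q _ => rfl⟩
    have a1' : A.le w (A.sm γ.1 w) := by
      have : A.sm (OrderIso.refl ℚ) w = w := A.sm_id w
      rw [this] at a1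
      exact a1
    have a2 := hmaxv ⟨γ.1.trans γ.1, fun q hq => by
      rw [OrderIso.trans_apply, γ.2 q hq, γ.2 q hq]⟩
    rw [sm_trans] at a2
    have a3 := A.le_sm γ.1.strictMono a1'
    have a4 := A.le_antisymm a2 a3
    have a5 := A.sm_symm a4
    rw [A.sm_symm rfl] at a5
    exact a5.symm
  intro g hg
  have b1 := hmaxv ⟨g, hg⟩
  have b2 := hmaxv ⟨g.symm, supp_symm hg⟩
  rw [hγw] at b1 b2
  have b3 := A.le_sm g.strictMono b2
  rw [A.sm_symm' (g := g)] at b3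
  exact A.le_antisymm b1 b3

/-- The reversed statement. -/
theorem exists_null_hi [Countable Ω] (w : Ω) {B : Set ℚ} (hB : IsUpperSet B) (hne : B.Nonempty)
    (hmin : ∀ x ∈ B, ∃ y ∈ B, y < x) : ∃ d ∈ B, A.Null w (B ∩ Set.Iio d) := by
  obtain ⟨c, hc, hnull⟩ := exists_null_lo (A := A.rev) w (T := {q | -q ∈ B})
    (fun a b hab ha => hB (neg_le_neg hab) ha) (by
      obtain ⟨b, hb⟩ := hne
      exact ⟨-b, by simpa using hb⟩) (by
      intro x hx
      obtain ⟨y, hy, hyx⟩ := hmin (-x) hx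
      exact ⟨-y, by simpa using hy, by linarith⟩)
  refine ⟨-c, hc, fun g hg => ?_⟩
  have hm : StrictMono fun q : ℚ => -g (-q) :=
    fun a b hab => neg_lt_neg (g.strictMono (neg_lt_neg hab))
  have := hnull (mkIso (fun q => -g (-q)) (fun q => -g.symm (-q)) hm (by simp)) (by
    intro q hq
    rw [mkIso_apply, hg, neg_neg]
    rintro ⟨h1, h2⟩
    refine hq ⟨h1, ?_⟩
    have : -q < -c := h2
    show c < q
    linarith)
  rw [rev_sm] at this
  refine Eq.trans (A.sm_congr (fun q => ?_) w) this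
  rw [mkIso_apply, neg_neg, neg_neg]

theorem OC.image {I : Set ℚ} (hI : OC I) (k : ℚ ≃o ℚ) : OC (k '' I) where
  conv := by
    refine ⟨?_⟩
    rintro _ ⟨x, hx, rfl⟩ _ ⟨y, hy, rfl⟩ z ⟨h1, h2⟩
    refine ⟨k.symm z, hI.conv.out hx hy ⟨?_, ?_⟩, k.apply_symm_apply z⟩
    · rw [← k.le_iff_le, k.apply_symm_apply]
      exact h1
    · rw [← k.le_iff_le, k.apply_symm_apply]
      exact h2
  lo := by
    rintro _ ⟨x, hx, rfl⟩
    obtain ⟨y, hy, hyx⟩ := hI.lo x hx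
    exact ⟨k y, ⟨y, hy, rfl⟩, k.strictMono hyx⟩
  hi := by
    rintro _ ⟨x, hx, rfl⟩
    obtain ⟨y, hy, hyx⟩ := hI.hi x hx
    exact ⟨k y, ⟨y, hy, rfl⟩, k.strictMono hyx⟩

theorem Null.image {w : Ω} {I : Set ℚ} (h : A.Null w I) {k : ℚ ≃o ℚ} (hk : A.sm k w = w) :
    A.Null w (k '' I) := by
  intro g hg
  have h1 : A.sm (k.trans (g.trans k.symm)) w = w := by
    refine h _ fun q hq => ?_
    rw [OrderIso.trans_apply, OrderIso.trans_apply, hg, k.symm_apply_apply]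
    rintro ⟨q', hq', he⟩
    rw [k.apply_eq_iff_eq] at he
    rw [he] at hq'
    exact hq hq'
  rw [sm_trans, sm_trans, hk] at h1
  have h2 : A.sm k (A.sm k.symm (A.sm g w)) = A.sm k w := by rw [h1]
  rw [A.sm_symm', hk] at h2
  exact h2

/-- Merging the two sides of a gap, given an automorphism fixing `w` and moving the gap. -/
theorem Null.gap_aux {w : Ω} {T : Set ℚ} (hT : IsLowerSet T) {c d : ℚ}
    (hmax : ∀ x ∈ T, ∃ y ∈ T, x < y) (hmin : ∀ x ∉ T, ∃ y ∉ T, y < x)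
    (h1 : A.Null w (T ∩ Set.Ioi c)) (h2 : A.Null w (Tᶜ ∩ Set.Iio d)) {h : ℚ ≃o ℚ}
    (hs : ∀ q ∉ Set.Ioo c d, h q = q) (hw : A.sm h w = w) {q : ℚ} (hq : q ∉ T)
    (hq' : h q ∈ T) : A.Null w (Set.Ioo c d) := by
  have hqI : q ∈ Set.Ioo c d := by
    by_contra hcon
    rw [hs q hcon] at hq'
    exact hq hq'
  have hhq : h q ∈ Set.Ioo c d := supp_mem hs hqI
  have hI : OC (T ∩ Set.Ioi c) := by
    refine ⟨hT.ordConnected.inter Set.ordConnected_Ioi, ?_, ?_⟩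
    · rintro x ⟨hx, hxc⟩
      obtain ⟨y, h1, h2⟩ := exists_between (show c < x from hxc)
      exact ⟨y, ⟨hT h2.le hx, h1⟩, h2⟩
    · rintro x ⟨hx, hxc⟩
      obtain ⟨y, h1, h2⟩ := hmax x hx
      exact ⟨y, ⟨h1, (show c < x from hxc).trans h2⟩, h2⟩
  have hJ : OC (Tᶜ ∩ Set.Iio d) := by
    refine ⟨hT.compl.ordConnected.inter Set.ordConnected_Iio, ?_, ?_⟩
    · rintro x ⟨hx, hxc⟩
      obtain ⟨y, h1, h2⟩ := hmin x hx
      exact ⟨y, ⟨h1, h2.trans (show x < d from hxc)⟩, h2⟩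
    · rintro x ⟨hx, hxc⟩
      obtain ⟨y, h1, h2⟩ := exists_between (show x < d from hxc)
      exact ⟨y, ⟨fun h3 => hx (hT h1.le h3), h2⟩, h1⟩
  have hU := Null.union hI (OC.image hJ h) h1 (h2.image hw) (t := h q) ⟨hq', hhq.1⟩
    ⟨q, ⟨hq, hqI.2⟩, rfl⟩
  refine hU.mono fun y hy => ?_
  by_cases hyT : y ∈ T
  · exact Or.inl ⟨hyT, hy.1⟩
  · right
    have hlt : h q < y := by
      by_contra hcon
      exact hyT (hT (not_lt.1 hcon) hq')
    have hlt' : q < h.symm y := by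
      rw [← h.lt_iff_lt, h.apply_symm_apply]
      exact hlt
    refine ⟨h.symm y, ⟨fun h3 => hq (hT hlt'.le h3), ?_⟩, h.apply_symm_apply y⟩
    exact (supp_mem (supp_symm hs) hy).2

/-- The rational cut of a real number. -/
def rcut (r : ℝ) : Set ℚ := {q | (q : ℝ) < r}

theorem rcut_lower (r : ℝ) : IsLowerSet (rcut r) := by
  intro a b hab (ha : (a : ℝ) < r)
  show (b : ℝ) < r
  have : (b : ℝ) ≤ a := by exact_mod_cast hab
  linarith

theorem rcut_max {r : ℝ} : ∀ x ∈ rcut r, ∃ y ∈ rcut r, x < y := by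
  intro x (hx : (x : ℝ) < r)
  obtain ⟨y, h1, h2⟩ := exists_rat_btwn hx
  exact ⟨y, h2, by exact_mod_cast h1⟩

theorem rcut_min {r : ℝ} (hr : Irrational r) : ∀ x ∉ rcut r, ∃ y ∉ rcut r, y < x := by
  intro x hx
  have hx' : r ≤ x := not_lt.1 hx
  have hx'' : r < x := lt_of_le_of_ne hx' fun h => hr ⟨x, h.symm⟩
  obtain ⟨y, h1, h2⟩ := exists_rat_btwn hx''
  refine ⟨y, ?_, by exact_mod_cast h2⟩
  intro (h : (y : ℝ) < r)
  linarith

theorem Null.gap [Countable Ω] {w : Ω} {T : Set ℚ} (hT : IsLowerSet T) {c d : ℚ} (hc : c ∈ T)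
    (hd : d ∉ T) (hmax : ∀ x ∈ T, ∃ y ∈ T, x < y) (hmin : ∀ x ∉ T, ∃ y ∉ T, y < x)
    (h1 : A.Null w (T ∩ Set.Ioi c)) (h2 : A.Null w (Tᶜ ∩ Set.Iio d)) :
    A.Null w (Set.Ioo c d) := by
  have ocs : ∀ {T : Set ℚ}, IsLowerSet T → (∀ x ∈ T, ∃ y ∈ T, x < y) →
      (∀ x ∉ T, ∃ y ∉ T, y < x) → OC (T ∩ Set.Ioi c) ∧ OC (Tᶜ ∩ Set.Iio d) := by
    intro T hT hmax hmin
    constructor
    · refine ⟨hT.ordConnected.inter Set.ordConnected_Ioi, ?_, ?_⟩
      · rintro x ⟨hx, hxc⟩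
        obtain ⟨y, h1, h2⟩ := exists_between (show c < x from hxc)
        exact ⟨y, ⟨hT h2.le hx, h1⟩, h2⟩
      · rintro x ⟨hx, hxc⟩
        obtain ⟨y, h1, h2⟩ := hmax x hx
        exact ⟨y, ⟨h1, (show c < x from hxc).trans h2⟩, h2⟩
    · refine ⟨hT.compl.ordConnected.inter Set.ordConnected_Iio, ?_, ?_⟩
      · rintro x ⟨hx, hxc⟩
        obtain ⟨y, h1, h2⟩ := hmin x hx
        exact ⟨y, ⟨h1, h2.trans (show x < d from hxc)⟩, h2⟩
      · rintro x ⟨hx, hxc⟩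
        obtain ⟨y, h1, h2⟩ := exists_between (show x < d from hxc)
        exact ⟨y, ⟨fun h3 => hx (hT h1.le h3), h2⟩, h1⟩
  have hcd : c < d := by
    by_contra hcon
    exact hd (hT (not_lt.1 hcon) hc)
  have nT1 : (T ∩ Set.Ioi c).Nonempty := by
    obtain ⟨y, hy, hy'⟩ := hmax c hc
    exact ⟨y, hy, hy'⟩
  have nT2 : (Tᶜ ∩ Set.Iio d).Nonempty := by
    obtain ⟨y, hy, hy'⟩ := hmin d hd
    exact ⟨y, hy, hy'⟩
  let R := {r : ℝ // r ∈ Set.Ioo (c : ℝ) d ∧ Irrational r}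
  have hmove : ∀ r : R, ∃ h : ℚ ≃o ℚ, (∀ q ∉ Set.Ioo c d, h q = q) ∧
      ∀ q, h q ∈ rcut r.1 ↔ q ∈ T := by
    rintro ⟨r, ⟨hr1, hr2⟩, hr⟩
    have hd' : d ∉ rcut r := fun (h : (d : ℝ) < r) => by linarith
    refine exists_gap_move hT (rcut_lower r) hc hr1 hd hd' (ocs hT hmax hmin).1
      (ocs (rcut_lower r) rcut_max (rcut_min hr)).1 (ocs hT hmax hmin).2
      (ocs (rcut_lower r) rcut_max (rcut_min hr)).2 nT1 ?_ nT2 ?_
    · obtain ⟨y, hy, hy'⟩ := rcut_max c hr1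
      exact ⟨y, hy, hy'⟩
    · obtain ⟨y, hy, hy'⟩ := rcut_min hr d hd'
      exact ⟨y, hy, hy'⟩
  choose h hh1 hh2 using hmove
  have hni : ¬ Function.Injective fun r : R => A.sm (h r) w := by
    intro hinj
    have hcR : Countable R := hinj.countable
    have h3 : (Set.Ioo (c : ℝ) d).Countable := by
      have h4 : ({r : ℝ | r ∈ Set.Ioo (c : ℝ) d ∧ Irrational r} ∪
          Set.range ((↑) : ℚ → ℝ)).Countable :=
        Set.Countable.union (Set.countable_coe_iff.1 hcR) (Set.countable_range _)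
      refine h4.mono fun r hr => ?_
      by_cases hir : Irrational r
      · exact Or.inl ⟨hr, hir⟩
      · right
        unfold Irrational at hir
        rwa [not_not] at hir
    rw [Cardinal.Real.Ioo_countable_iff] at h3
    have : (d : ℚ) ≤ c := by exact_mod_cast h3
    linarith
  unfold Function.Injective at hni
  push Not at hni
  obtain ⟨r, r', heq, hne⟩ := hni
  have main : ∀ r r' : R, A.sm (h r) w = A.sm (h r') w → r.1 < r'.1 →
      A.Null w (Set.Ioo c d) := by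
    intro r r' heq hlt
    obtain ⟨s, hs1, hs2⟩ := exists_rat_btwn hlt
    have hsT : s ∉ rcut r.1 := fun (h : (s : ℝ) < r.1) => by linarith
    have hsT' : s ∈ rcut r'.1 := hs2
    refine h1.gap_aux hT hmax hmin h2 (h := (h r).trans (h r').symm) ?_ ?_
      (q := (h r).symm s) ?_ ?_
    · intro q hq
      rw [OrderIso.trans_apply, hh1 r q hq, supp_symm (hh1 r') q hq]
    · rw [sm_trans, heq, A.sm_symm rfl]
    · rw [← hh2 r, OrderIso.apply_symm_apply]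
      exact hsT
    · rw [OrderIso.trans_apply, OrderIso.apply_symm_apply, ← hh2 r',
        OrderIso.apply_symm_apply]
      exact hsT'
  rcases lt_or_gt_of_ne (fun h => hne (Subtype.ext h) : r.1 ≠ r'.1) with hlt | hlt
  · exact main r r' heq hlt
  · exact main r' r heq.symm hlt

end Act

end PolQ
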