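import Pool.Agent.Hhelper75.PolQ.Supp

/-!
# Finite supports, least supports
-/

namespace PolQ

theorem exists_split_fix (g : ℚ ≃o ℚ) {c : ℚ} (hc : g c = c) :
    ∃ g₁ g₂ : ℚ ≃o ℚ, (∀ q, q < c → g₁ q = g q) ∧ (∀ q, c ≤ q → g₁ q = q) ∧
      (∀ q, q ≤ c → g₂ q = q) ∧ (∀ q, c < q → g₂ q = g q) ∧ ∀ q, g q = g₂ (g₁ q) := by
  obtain ⟨g₁, g₂, e1, e2, e3, e4, e5⟩ := exists_split g (C := Set.Iio c)
    Set.ordConnected_Iio (fun q => by
      simp only [Set.mem_Iio]
      conv_lhs => rw [← hc]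
      exact g.lt_iff_lt)
  refine ⟨g₁, g₂, e1, fun q hq => e2 q (not_lt.2 hq), fun q hq => ?_,
    fun q hq => e4 q (not_lt.2 hq.le), e5⟩
  rcases hq.lt_or_eq with h | rfl
  · exact e3 q h
  · rw [e4 q (lt_irrefl q), hc]

namespace Act

variable {Ω : Type} (A : Act Ω)

/-- The finite set `F` supports `w`. -/
def Supp (w : Ω) (F : Finset ℚ) : Prop :=
  ∀ g : ℚ ≃o ℚ, (∀ p ∈ F, g p = p) → A.sm g w = w

/-- `F` supports `w` on the part below `t`. -/
def SuppLo (w : Ω) (t : ℚ) (F : Finset ℚ) : Prop :=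
  ∀ g : ℚ ≃o ℚ, (∀ q, t ≤ q → g q = q) → (∀ p ∈ F, g p = p) → A.sm g w = w

variable {A}

theorem SuppLo.step {w : Ω} {c d : ℚ} {F : Finset ℚ} (h : A.SuppLo w c F)
    (hn : A.Null w (Set.Ioo c d)) : A.SuppLo w d (insert c F) := by
  intro g hg hF
  obtain ⟨g₁, g₂, e1, e2, e3, e4, e5⟩ := exists_split_fix g (hF c (Finset.mem_insert_self c F))
  rw [A.sm_congr e5, A.sm_comp g₂.strictMono g₁.strictMono]
  have s1 : A.sm g₁ w = w := by
    refine h g₁ e2 fun p hp => ?_
    rcases lt_or_ge p c with hpc | hpc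
    · rw [e1 p hpc, hF p (Finset.mem_insert_of_mem hp)]
    · exact e2 p hpc
  have s2 : A.sm g₂ w = w := by
    refine hn g₂ fun q hq => ?_
    rcases le_or_gt q c with hqc | hqc
    · exact e3 q hqc
    · rw [e4 q hqc]
      refine hg q ?_
      by_contra hcon
      exact hq ⟨hqc, not_le.1 hcon⟩
  rw [s1, s2]

theorem SuppLo.mono {w : Ω} {t t' : ℚ} {F : Finset ℚ} (h : A.SuppLo w t F) (ht : t' ≤ t) :
    A.SuppLo w t' F := fun g hg hF => h g (fun q hq => hg q (ht.trans hq)) hF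

theorem exists_suppLo [Countable Ω] (w : Ω) (t : ℚ) : ∃ F, A.SuppLo w t F := by
  let T : Set ℚ := {t | ∃ F, A.SuppLo w t F}
  have hT : IsLowerSet T := by
    rintro a b hab ⟨F, hF⟩
    exact ⟨F, hF.mono hab⟩
  have hne : T.Nonempty := by
    obtain ⟨d, -, hd⟩ := exists_null_hi (A := A) w (B := Set.univ) isUpperSet_univ
      ⟨0, trivial⟩ (fun x _ => ⟨x - 1, trivial, by linarith⟩)
    refine ⟨d, ∅, fun g hg _ => hd g fun q hq => hg q ?_⟩
    by_contra hcon
    exact hq ⟨trivial, not_le.1 hcon⟩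
  by_contra hcon
  have htT : t ∉ T := hcon
  have hstep : ∀ c ∈ T, ∀ d, A.Null w (Set.Ioo c d) → d ∈ T := by
    rintro c ⟨F, hF⟩ d hd
    exact ⟨_, hF.step hd⟩
  by_cases hmax : ∃ m ∈ T, ∀ x ∈ T, x ≤ m
  · obtain ⟨m, hm, hmax⟩ := hmax
    obtain ⟨d, hd, hnull⟩ := exists_null_hi (A := A) w (B := Set.Ioi m) (isUpperSet_Ioi m)
      ⟨m + 1, by simp⟩ (fun x hx => by
        obtain ⟨y, h1, h2⟩ := exists_between (show m < x from hx)
        exact ⟨y, h1, h2⟩)
    have := hmax d (hstep m hm d (hnull.mono fun x hx => ⟨hx.1, hx.2⟩))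
    exact absurd (show m < d from hd) (not_lt.2 this)
  · push Not at hmax
    obtain ⟨c, hc, hnull⟩ := exists_null_lo (A := A) w hT hne hmax
    by_cases hmin : ∃ m ∉ T, ∀ x ∉ T, m ≤ x
    · obtain ⟨m, hm, hmin⟩ := hmin
      refine hm (hstep c hc m (hnull.mono fun x hx => ⟨?_, hx.1⟩))
      by_contra hxT
      exact absurd (hmin x hxT) (not_le.2 hx.2)
    · push Not at hmin
      obtain ⟨d, hd, hnull'⟩ := exists_null_hi (A := A) w (B := Tᶜ) hT.compl
        ⟨t, htT⟩ hmin
      exact hd (hstep c hc d (Null.gap hT hc hd hmax hmin hnull hnull'))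

/-- Every point of a countable action has a finite support. -/
theorem exists_supp [Countable Ω] (w : Ω) : ∃ F, A.Supp w F := by
  obtain ⟨c, -, hc⟩ := exists_null_lo (A := A) w (T := Set.univ) isLowerSet_univ
      ⟨0, trivial⟩ (fun x _ => ⟨x + 1, trivial, by linarith⟩)
  obtain ⟨F, hF⟩ := exists_suppLo (A := A) w c
  refine ⟨insert c F, fun g hg => ?_⟩
  obtain ⟨g₁, g₂, e1, e2, e3, e4, e5⟩ := exists_split_fix g (hg c (Finset.mem_insert_self c F))
  rw [A.sm_congr e5, A.sm_comp g₂.strictMono g₁.strictMono]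
  have s1 : A.sm g₁ w = w := by
    refine hF g₁ e2 fun p hp => ?_
    rcases lt_or_ge p c with hpc | hpc
    · rw [e1 p hpc, hg p (Finset.mem_insert_of_mem hp)]
    · exact e2 p hpc
  have s2 : A.sm g₂ w = w := by
    refine hc g₂ fun q hq => e3 q ?_
    by_contra hcon
    exact hq ⟨trivial, not_le.1 hcon⟩
  rw [s1, s2]

theorem Supp.mono {w : Ω} {F F' : Finset ℚ} (h : A.Supp w F) (hF : F ⊆ F') : A.Supp w F' :=
  fun g hg => h g fun p hp => hg p (hF hp)

/-- Two automorphisms agreeing on a support have the same effect. -/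
theorem Supp.congr {w : Ω} {F : Finset ℚ} (h : A.Supp w F) {g g' : ℚ ≃o ℚ}
    (hg : ∀ p ∈ F, g p = g' p) : A.sm g w = A.sm g' w := by
  have h1 : A.sm (g.trans g'.symm) w = w := by
    refine h _ fun p hp => ?_
    rw [OrderIso.trans_apply, hg p hp, g'.symm_apply_apply]
  rw [sm_trans] at h1
  have h2 : A.sm g' (A.sm g'.symm (A.sm g w)) = A.sm g' w := by rw [h1]
  rwa [A.sm_symm'] at h2

theorem Supp.image {w : Ω} {F : Finset ℚ} (h : A.Supp w F) (k : ℚ ≃o ℚ) :
    A.Supp (A.sm k w) (F.image k) := by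
  intro g hg
  have h1 : A.sm (k.trans (g.trans k.symm)) w = w := by
    refine h _ fun p hp => ?_
    rw [OrderIso.trans_apply, OrderIso.trans_apply, hg _ (Finset.mem_image_of_mem k hp),
      k.symm_apply_apply]
  rw [sm_trans, sm_trans] at h1
  have h2 : A.sm k (A.sm k.symm (A.sm g (A.sm k w))) = A.sm k w := by rw [h1]
  rwa [A.sm_symm'] at h2

theorem not_mem_cell {E : Finset ℚ} {p a : ℚ} (hp : p ∉ E) (ha : a ∈ E) : a ∉ cell E p := by
  intro h
  obtain ⟨h1, h2⟩ := h a ha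
  rcases lt_trichotomy a p with h | h | h
  · exact lt_irrefl _ (h1.1 h)
  · exact hp (h ▸ ha)
  · exact lt_irrefl _ (h2.1 h)

/-- If `F` and `F'` are supports and `p ∈ F \ F'`, then `F \ {p}` is a support. -/
theorem Supp.remove {w : Ω} {F F' : Finset ℚ} (h : A.Supp w F) (h' : A.Supp w F') {p : ℚ}
    (hp : p ∈ F) (hp' : p ∉ F') : A.Supp w (F.erase p) := by
  have hpe : p ∉ F.erase p := Finset.notMem_erase p F
  have oV := OC.cell F' hp'
  have oU := OC.cell (F.erase p) hpe
  have nV : A.Null w (cell F' p) := fun g hg => h' g fun a ha => hg a (not_mem_cell hp' ha)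
  have nL : A.Null w (cell (F.erase p) p ∩ Set.Iio p) := by
    refine fun g hg => h g fun a ha => hg a ?_
    rintro ⟨h1, h2⟩
    have : a ≠ p := ne_of_lt h2
    exact not_mem_cell hpe (Finset.mem_erase.2 ⟨this, ha⟩) h1
  have nR : A.Null w (cell (F.erase p) p ∩ Set.Ioi p) := by
    refine fun g hg => h g fun a ha => hg a ?_
    rintro ⟨h1, h2⟩
    have : a ≠ p := (ne_of_lt h2).symm
    exact not_mem_cell hpe (Finset.mem_erase.2 ⟨this, ha⟩) h1
  have oL := oU.inter (OC.iio p)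
  have oR := oU.inter (OC.ioi p)
  obtain ⟨t, ⟨ht1, ht2⟩, ht3⟩ := (oV.inter oU).lo p ⟨mem_cell_self _ _, mem_cell_self _ _⟩
  obtain ⟨s, ⟨hs1, hs2⟩, hs3⟩ := (oV.inter oU).hi p ⟨mem_cell_self _ _, mem_cell_self _ _⟩
  have n1 := Null.union oV oL nV nL (t := t) ht1 ⟨ht2, ht3⟩
  have n2 := Null.union (oV.union oL ht1 ⟨ht2, ht3⟩) oR n1 nR (t := s) (Or.inl hs1) ⟨hs2, hs3⟩
  have nU : A.Null w (cell (F.erase p) p) := by
    refine n2.mono fun x hx => ?_
    rcases lt_trichotomy x p with h | h | h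
    · exact Or.inl (Or.inr ⟨hx, h⟩)
    · rw [h]
      exact Or.inl (Or.inl (mem_cell_self _ _))
    · exact Or.inr ⟨hx, h⟩
  intro g hg
  obtain ⟨g₁, g₂, e1, e2, e3, e4, e5⟩ := exists_split g (C := cell (F.erase p) p)
    oU.conv (fun q => by
      constructor
      · intro hq a ha
        have := hq a ha
        have ga := hg a ha
        have k1 : a < g q ↔ a < q := by
          conv_lhs => rw [← ga]
          exact g.lt_iff_lt
        have k2 : g q < a ↔ q < a := by
          conv_lhs => rw [← ga]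
          exact g.lt_iff_lt
        rwa [k1, k2] at this
      · intro hq a ha
        have := hq a ha
        have ga := hg a ha
        have k1 : a < g q ↔ a < q := by
          conv_lhs => rw [← ga]
          exact g.lt_iff_lt
        have k2 : g q < a ↔ q < a := by
          conv_lhs => rw [← ga]
          exact g.lt_iff_lt
        rwa [k1, k2])
  rw [A.sm_congr e5, A.sm_comp g₂.strictMono g₁.strictMono, nU g₁ e2]
  refine h g₂ fun a ha => ?_
  by_cases hap : a = p
  · rw [hap]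
    exact e3 p (mem_cell_self _ _)
  · have hae : a ∈ F.erase p := Finset.mem_erase.2 ⟨hap, ha⟩
    rw [e4 a (not_mem_cell hpe hae), hg a hae]

/-- There is a least support. -/
theorem exists_least_supp [Countable Ω] (w : Ω) :
    ∃ F, A.Supp w F ∧ ∀ F', A.Supp w F' → F ⊆ F' := by
  classical
  have hex : ∃ n, ∃ F, A.Supp w F ∧ F.card = n := by
    obtain ⟨F, hF⟩ := exists_supp (A := A) w
    exact ⟨_, F, hF, rfl⟩
  obtain ⟨F, hF, hcard⟩ := Nat.find_spec hex
  refine ⟨F, hF, fun F' hF' p hp => ?_⟩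
  by_contra hp'
  have h1 := hF.remove hF' hp hp'
  have h2 : (F.erase p).card < Nat.find hex := by
    rw [← hcard]
    exact Finset.card_erase_lt_of_mem hp
  exact Nat.find_min hex h2 ⟨_, h1, rfl⟩

/-- The stabilizer of a point fixes the least support. -/
theorem fix_least {w : Ω} {F : Finset ℚ} (h : A.Supp w F) (hleast : ∀ F', A.Supp w F' → F ⊆ F')
    {k : ℚ ≃o ℚ} (hk : A.sm k w = w) : ∀ p ∈ F, k p = p := by
  have h1 : A.Supp w (F.image k) := by
    have := h.image k
    rwa [hk] at this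
  have h2 : F = F.image k := by
    refine Finset.eq_of_subset_of_card_le (hleast _ h1) Finset.card_image_le
  by_contra hcon
  push Not at hcon
  obtain ⟨p, hp, hp'⟩ := hcon
  have hne : (F.filter fun p => k p ≠ p).Nonempty := ⟨p, by simp [hp, hp']⟩
  have hm := Finset.max'_mem _ hne
  set m := (F.filter fun p => k p ≠ p).max' hne with hmdef
  rw [Finset.mem_filter] at hm
  rcases lt_or_gt_of_ne hm.2 with hlt | hlt
  · -- `k m < m`
    have : m ∈ F.image k := by
      rw [← h2]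
      exact hm.1
    obtain ⟨q, hq, hqm⟩ := Finset.mem_image.1 this
    have hqm' : m < q := by
      rw [← k.lt_iff_lt, hqm]
      exact hlt
    have : q ∈ F.filter fun p => k p ≠ p := by
      rw [Finset.mem_filter]
      exact ⟨hq, by rw [hqm]; exact ne_of_lt hqm'⟩
    exact absurd (Finset.le_max' _ q this) (not_le.2 hqm')
  · have h3 : k m ∈ F := by
      rw [h2]
      exact Finset.mem_image_of_mem k hm.1
    have : k m ∈ F.filter fun p => k p ≠ p := by
      rw [Finset.mem_filter]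
      exact ⟨h3, fun h => hm.2 (k.injective h)⟩
    exact absurd (Finset.le_max' _ _ this) (not_le.2 hlt)

end Act

end PolQ
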